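import Pool.Agent.Lib.VN.Defs
import Pool.Agent.Lib.HLT.LastUniform

/-!
# Mean square over tuples, from the mean square property in one coordinate
-/

set_option autoImplicit false

open Finset Filter

namespace Pool.Agent.VN

open Pool.Agent.HLT

lemma last_coord_ms (m K K' B' A x : ℕ) (hK' : K * (m + 1) ≤ K') (hL : 2 ≤ Real.log x)
    (j : Fin m) (T : Fin m → Finset ℕ) (hT : ∀ i, T i ⊆ range (x + 1)) (hTj : MSP A K' B' x (T j)) (H : ℕ → ℂ)
    (G : Fin m → ℕ → ℝ) (hH : ∀ n ∈ Icc 1 x, ‖H n‖ ≤ Real.log x ^ K)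
    (hG : ∀ i, ∀ n ∈ Icc 1 (2 * x), |G i n| ≤ Real.log x ^ K) (hGj : G j = ff (zA A x))
    (t : Fin m → ℕ) (ht : t ∈ Fintype.piFinset T) :
    ∑ u ∈ T j, ‖∑ n ∈ Icc 1 x, H n * ∏ i, (G i (n + Function.update t j u i) : ℂ)‖ ^ 2 ≤
      (T j).card * (x ^ 2 / Real.log x ^ B') := by
  classical
  set L := Real.log x with hLdef
  have hL0 : 0 < L := by linarith
  have hL1 : 1 ≤ L := by linarith
  set h : ℕ → ℂ := fun n => H n * ∏ i ∈ univ.erase j, (G i (n + t i) : ℂ) with hh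
  have e1 : ∀ u : ℕ, ∑ n ∈ Icc 1 x, H n * ∏ i, (G i (n + Function.update t j u i) : ℂ) =
      ∑ n ∈ Icc 1 x, h n * (ff (zA A x) (n + u) : ℂ) := by
    intro u
    refine Finset.sum_congr rfl (fun n _ => ?_)
    rw [← Finset.mul_prod_erase univ (fun i => (G i (n + Function.update t j u i) : ℂ))
      (Finset.mem_univ j), Function.update_self]
    have : ∏ i ∈ univ.erase j, (G i (n + Function.update t j u i) : ℂ) =
        ∏ i ∈ univ.erase j, (G i (n + t i) : ℂ) := by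
      refine Finset.prod_congr rfl (fun i hi => ?_)
      rw [Function.update_of_ne (Finset.ne_of_mem_erase hi)]
    rw [this, hh, hGj]
    ring
  rw [Finset.sum_congr rfl fun u _ => by rw [e1 u]]
  refine hTj.2 h fun n hn => ?_
  have hn' := Finset.mem_Icc.mp hn
  have h1 : ‖h n‖ ≤ L ^ K * ∏ i ∈ univ.erase j, L ^ K := by
    rw [hh]
    simp only [norm_mul, norm_prod]
    refine mul_le_mul (hH n hn) ?_ (Finset.prod_nonneg (fun i _ => norm_nonneg _))
      (by positivity)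
    refine Finset.prod_le_prod (fun i _ => norm_nonneg _) (fun i _ => ?_)
    rw [Complex.norm_real, Real.norm_eq_abs]
    have h3 := Finset.mem_range.mp (hT i ((Fintype.mem_piFinset.mp ht) i))
    exact hG i (n + t i) (Finset.mem_Icc.mpr ⟨by omega, by omega⟩)
  have h2 : ∏ _i ∈ (univ : Finset (Fin m)).erase j, L ^ K ≤ L ^ (K * m) := by
    rw [Finset.prod_const, ← pow_mul]
    refine pow_le_pow_right₀ hL1 (Nat.mul_le_mul_left K ?_)
    refine (Finset.card_le_univ _).trans ?_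
    rw [Fintype.card_fin]
  calc ‖h n‖ ≤ L ^ K * ∏ i ∈ univ.erase j, L ^ K := h1
    _ ≤ L ^ K * L ^ (K * m) := mul_le_mul_of_nonneg_left h2 (by positivity)
    _ = L ^ (K * (m + 1)) := by
        rw [← pow_add]
        congr 1
        ring
    _ ≤ L ^ K' := pow_le_pow_right₀ hL1 hK'

theorem last_ms (m K B' A x : ℕ) (hL : 2 ≤ Real.log x) (j : Fin m) (T : Fin m → Finset ℕ)
    (hT : ∀ i, T i ⊆ range (x + 1)) (hTj : MSP A (K * (m + 1)) B' x (T j)) (w : ℕ → ℂ) (G : Fin m → ℕ → ℝ)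
    (hw : ∀ n ∈ Icc 1 x, ‖w n‖ ≤ Real.log x ^ K)
    (hG : ∀ i, ∀ n ∈ Icc 1 (2 * x), |G i n| ≤ Real.log x ^ K) (hGj : G j = ff (zA A x)) :
    ∑ t ∈ Fintype.piFinset T, ‖∑ n ∈ Icc 1 x, w n * ∏ i, (G i (n + t i) : ℂ)‖ ^ 2 ≤
      (∏ i, ((T i).card : ℝ)) * (x ^ 2 / Real.log x ^ B') := by
  by_cases hj : (T j).card = 0
  · have h1 : T j = ∅ := Finset.card_eq_zero.mp hj
    have h2 : Fintype.piFinset T = ∅ := by
      rw [Finset.eq_empty_iff_forall_notMem]
      intro t ht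
      have h3 := (Fintype.mem_piFinset.mp ht) j
      rw [h1] at h3
      exact absurd h3 (Finset.notMem_empty _)
    have h4 : ∏ i, ((T i).card : ℝ) = 0 :=
      Finset.prod_eq_zero (Finset.mem_univ j) (by rw [hj]; simp)
    rw [h2, h4, Finset.sum_empty, zero_mul]
  · have hpos : (0 : ℝ) < (T j).card := by exact_mod_cast Nat.pos_of_ne_zero hj
    have hid := card_mul_sum_update j T
      (fun t => ‖∑ n ∈ Icc 1 x, w n * ∏ i, (G i (n + t i) : ℂ)‖ ^ 2)
    have hle : ∑ t ∈ Fintype.piFinset T, ∑ u ∈ T j,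
        ‖∑ n ∈ Icc 1 x, w n * ∏ i, (G i (n + Function.update t j u i) : ℂ)‖ ^ 2 ≤
        ∑ _t ∈ Fintype.piFinset T, ((T j).card : ℝ) * (x ^ 2 / Real.log x ^ B') :=
      Finset.sum_le_sum (fun t ht => last_coord_ms m K _ B' A x le_rfl hL j T hT hTj w G hw hG hGj t ht)
    rw [hid, Finset.sum_const, nsmul_eq_mul, Fintype.card_piFinset] at hle
    push_cast at hle
    have h5 : ((T j).card : ℝ) * ∑ t ∈ Fintype.piFinset T,
        ‖∑ n ∈ Icc 1 x, w n * ∏ i, (G i (n + t i) : ℂ)‖ ^ 2 ≤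
        ((T j).card : ℝ) * ((∏ i, ((T i).card : ℝ)) * (x ^ 2 / Real.log x ^ B')) := by
      refine hle.trans (le_of_eq ?_)
      ring
    exact le_of_mul_le_mul_left h5 hpos

end Pool.Agent.VN
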