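import Pool.Agent.Lib.HLT.Defs

/-!
# The mean square property of a set of shifts

`MSP A K B x T`: `T ⊆ [0, x]` and for every sequence `h` with `|h n| ≤ (log x)^K` the sums `∑ n ≤ x, h n * ff (zA A x) (n + u)` are in mean square over
`u ∈ T` at most `x / (log x)^(B/2)`. `tr T b = T + b`. `GoodP A B x H u v`: the correlation of `ff` at the shifts `β + u`, `β + v` is at most
`x / (log x)^B` for all base points `β ≤ x - H`.
-/

set_option autoImplicit false

open Finset Filter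

namespace Pool.Agent.VN

open Pool.Agent.HLT

/-- The mean square property. -/
def MSP (A K B x : ℕ) (T : Finset ℕ) : Prop :=
  T ⊆ range (x + 1) ∧ ∀ h : ℕ → ℂ, (∀ n ∈ Icc 1 x, ‖h n‖ ≤ Real.log x ^ K) →
    ∑ u ∈ T, ‖∑ n ∈ Icc 1 x, h n * (ff (zA A x) (n + u) : ℂ)‖ ^ 2 ≤
      (T.card : ℝ) * ((x : ℝ) ^ 2 / Real.log x ^ B)

/-- The translate `T + b`. -/
def tr (T : Finset ℕ) (b : ℕ) : Finset ℕ := T.image (fun t => t + b)

/-- Small correlations for all base points `β ≤ x - H`. -/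
def GoodP (A B x H u v : ℕ) : Prop := ∀ β : ℕ, β + H ≤ x →
  |∑ n ∈ Icc 1 x, ff (zA A x) (n + (u + β)) * ff (zA A x) (n + (v + β))| ≤ x / Real.log x ^ B

lemma tr_card (T : Finset ℕ) (b : ℕ) : (tr T b).card = T.card :=
  Finset.card_image_of_injective _ (fun _ _ h => Nat.add_right_cancel h)

lemma sum_tr {M : Type} [AddCommMonoid M] (T : Finset ℕ) (b : ℕ) (f : ℕ → M) :
    ∑ u ∈ tr T b, f u = ∑ u ∈ T, f (u + b) := by
  unfold tr
  rw [Finset.sum_image (fun _ _ _ _ h => Nat.add_right_cancel h)]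

lemma tr_zero (T : Finset ℕ) : tr T 0 = T := by
  unfold tr
  simp

lemma mem_tr {T : Finset ℕ} {b u : ℕ} : u ∈ tr T b ↔ ∃ t ∈ T, t + b = u := by
  unfold tr
  rw [Finset.mem_image]

lemma tr_sub_range {T : Finset ℕ} {H b x : ℕ} (hT : T ⊆ range (H + 1)) (h : b + H ≤ x) :
    tr T b ⊆ range (x + 1) := by
  intro u hu
  obtain ⟨t, ht, rfl⟩ := mem_tr.mp hu
  have := Finset.mem_range.mp (hT ht)
  rw [Finset.mem_range]
  omega

lemma MSP.mono {A K K' B B' x : ℕ} {T : Finset ℕ} (h : MSP A K' B' x T) (hK : K ≤ K') (hB : B ≤ B')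
    (hL : 1 ≤ Real.log x) : MSP A K B x T := by
  refine ⟨h.1, fun g hg => ?_⟩
  refine (h.2 g (fun n hn => (hg n hn).trans (pow_le_pow_right₀ hL hK))).trans ?_
  have h0 : 0 < Real.log x := by linarith
  refine mul_le_mul_of_nonneg_left ?_ (Nat.cast_nonneg _)
  exact div_le_div_of_nonneg_left (by positivity) (pow_pos h0 _) (pow_le_pow_right₀ hL hB)

end Pool.Agent.VN
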