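import Pool.Agent.Lib.HLU.Base
import Pool.Agent.Lib.VK.FourierShort
import Pool.Agent.Lib.VN.Defs

/-!
# Sets of an interval of length `H` with sparse spectrum at scale `H` have the mean square property
-/

set_option autoImplicit false

open Finset Filter

namespace Pool.Agent.VN

open Pool.Agent.HLT Pool.Agent.VK Pool.Agent.HLU

/-- The spectral hypothesis (no condition on the position of `T`). -/
def SpT (F : ℕ → ℕ) (b0 x H : ℕ) (T : Finset ℕ) : Prop :=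
  ∀ b ≤ b0, ∀ Θ : Finset ℝ, Sep H Θ →
    (∀ θ ∈ Θ, (T.card : ℝ) ≤ Real.log x ^ b * ‖WW T θ‖) → (Θ.card : ℝ) ≤ Real.log x ^ F b

lemma norm_WW_tr (T : Finset ℕ) (b : ℕ) (θ : ℝ) : ‖WW (tr T b) θ‖ = ‖WW T θ‖ := by
  unfold WW
  rw [sum_tr]
  have h : ∀ t : ℕ, ex (((t + b : ℕ) : ℝ) * θ) = ex (b * θ) * ex (t * θ) := by
    intro t
    rw [← ex_add]
    congr 1
    push_cast
    ring
  rw [Finset.sum_congr rfl fun t _ => h t, ← Finset.mul_sum, norm_mul, norm_ex, one_mul]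

lemma SpT.tr {F : ℕ → ℕ} {b0 x H : ℕ} {T : Finset ℕ} (h : SpT F b0 x H T) (b : ℕ) :
    SpT F b0 x H (tr T b) := by
  intro b' hb' Θ hΘ hθ
  refine h b' hb' Θ hΘ fun θ hθ' => ?_
  have := hθ θ hθ'
  rwa [tr_card, norm_WW_tr] at this

theorem msp_spec (K B' : ℕ) (F : ℕ → ℕ) : ∃ b0 B : ℕ, ∀ A : ℕ, ∀ᶠ x : ℕ in atTop, ∀ H : ℕ, 1 ≤ H → H ≤ x → WN A B x H →
    ∀ T ⊆ range (x + 1), SpT F b0 x H T → MSP A K B' x T := by
  refine ⟨B' + 2 * K + 6, F (B' + 2 * K + 6) + 2 * K + B' + 2, fun A => ?_⟩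
  filter_upwards [DZ_inv_le A, ev_log 2, eventually_ge_atTop 1] with x h4 hL2 hx1 H hH1 hHx hWN T hT hsp
  refine ⟨hT, fun h hh => ?_⟩
  set b : ℕ := B' + 2 * K + 6 with hb
  set B : ℕ := F b + 2 * K + B' + 2 with hB
  set L : ℝ := Real.log x with hL
  set z : ℕ := zA A x with hz
  have hx0 : (0:ℝ) < x := by exact_mod_cast hx1
  have hL0 : (0:ℝ) < L := by linarith
  have hL1 : (1:ℝ) ≤ L := by linarith
  have hLL : L ≤ L ^ 2 := by nlinarith
  have hff : ∀ n ∈ Icc 1 (2 * x), |ff z n| ≤ L ^ 2 := by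
    intro n hn
    rw [mem_Icc] at hn
    unfold ff
    have e1 := lp_le_sq hL2 hn.2
    have e2 := (nuz_le z n).trans (h4.trans hLL)
    have e3 := lp_nonneg n
    have e4 := nuz_nonneg z n
    rw [abs_le]
    constructor <;> linarith
  have hsumh : ∑ n ∈ Icc 1 x, ‖h n‖ ^ 2 ≤ x * L ^ (2 * K) := by
    refine (Finset.sum_le_sum (g := fun _ => L ^ (2 * K)) fun n hn => ?_).trans ?_
    · refine (pow_le_pow_left₀ (norm_nonneg _) (hh n hn) 2).trans ?_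
      rw [← pow_mul, mul_comm K 2]
    · rw [Finset.sum_const, nsmul_eq_mul, Nat.card_Icc]
      simp
  have hsumh0 : 0 ≤ ∑ n ∈ Icc 1 x, ‖h n‖ ^ 2 := Finset.sum_nonneg (fun _ _ => by positivity)
  have _ := hHx
  have hf := fourier_any x H hx1 hH1 T hT h (ff z) (L ^ 2) (L ^ b)
    (L ^ F b) ((x : ℝ) ^ 2 / L ^ B) (by positivity) (by positivity) (by positivity) (by positivity)
    hff (fun Θ h1 h2 => hsp b le_rfl Θ h1 h2) (fun k0 => hWN k0)
  refine hf.trans ?_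
  clear hf
  have hN0 : (0 : ℝ) < ((4 * x + 1 : ℕ) : ℝ) := by positivity
  have hcard : (0 : ℝ) ≤ (T.card : ℝ) := Nat.cast_nonneg _
  have hA : (T.card : ℝ) / L ^ b * ((∑ n ∈ Icc 1 x, ‖h n‖ ^ 2) * (2 * x * (L ^ 2) ^ 2)) ≤
      T.card * (x ^ 2 * (2 / L ^ (B' + 2))) := by
    have h1 : (∑ n ∈ Icc 1 x, ‖h n‖ ^ 2) * (2 * x * (L ^ 2) ^ 2) ≤
        (x * L ^ (2 * K)) * (2 * x * (L ^ 2) ^ 2) :=
      mul_le_mul_of_nonneg_right hsumh (by positivity)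
    have h2 := mul_le_mul_of_nonneg_left h1 (by positivity : 0 ≤ (T.card : ℝ) / L ^ b)
    refine h2.trans (le_of_eq ?_)
    have h3 : L ^ b = L ^ (B' + 2) * (L ^ (2 * K) * (L ^ 2) ^ 2) := by
      rw [hb, ← pow_mul, ← pow_add, ← pow_add]
      congr 1
      ring
    rw [h3]
    field_simp
  have hC : (T.card : ℝ) * (L ^ F b * ((x : ℝ) ^ 2 / L ^ B) / ((4 * x + 1 : ℕ) : ℝ)) *
      ∑ n ∈ Icc 1 x, ‖h n‖ ^ 2 ≤ T.card * (x ^ 2 * (1 / L ^ (B' + 2))) := by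
    have h1 := mul_le_mul_of_nonneg_left hsumh (by positivity : 0 ≤ (T.card : ℝ) *
      (L ^ F b * ((x : ℝ) ^ 2 / L ^ B) / ((4 * x + 1 : ℕ) : ℝ)))
    refine h1.trans ?_
    have h2 : (T.card : ℝ) * (L ^ F b * ((x : ℝ) ^ 2 / L ^ B) / ((4 * x + 1 : ℕ) : ℝ)) *
        (x * L ^ (2 * K)) =
        T.card * (x ^ 2 * ((x / ((4 * x + 1 : ℕ) : ℝ)) *
          (L ^ F b * L ^ (2 * K) / L ^ B))) := by
      field_simp
    rw [h2]
    refine mul_le_mul_of_nonneg_left (mul_le_mul_of_nonneg_left ?_ (by positivity)) hcard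
    have h3 : (x : ℝ) / ((4 * x + 1 : ℕ) : ℝ) ≤ 1 := by
      rw [div_le_one hN0]
      push_cast
      linarith
    have h5 : L ^ B = L ^ F b * L ^ (2 * K) * L ^ (B' + 2) := by
      rw [hB, ← pow_add, ← pow_add]
      congr 1
    have h6 : L ^ F b * L ^ (2 * K) / L ^ B = 1 / L ^ (B' + 2) := by
      rw [h5]
      field_simp
    rw [h6]
    calc (x : ℝ) / ((4 * x + 1 : ℕ) : ℝ) * (1 / L ^ (B' + 2)) ≤ 1 * (1 / L ^ (B' + 2)) :=
          mul_le_mul_of_nonneg_right h3 (by positivity)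
      _ = 1 / L ^ (B' + 2) := one_mul _
  have hsum := add_le_add hA hC
  refine hsum.trans ?_
  rw [← mul_add, ← mul_add]
  refine mul_le_mul_of_nonneg_left ?_ hcard
  have hfin : 2 / L ^ (B' + 2) + 1 / L ^ (B' + 2) ≤ 1 / L ^ B' := by
    rw [pow_add, ← add_div, div_le_div_iff₀ (by positivity) (by positivity)]
    have h8 : (4 : ℝ) ≤ L ^ 2 := by nlinarith
    have h9 : 0 < L ^ B' := by positivity
    nlinarith
  calc (x : ℝ) ^ 2 * (2 / L ^ (B' + 2) + 1 / L ^ (B' + 2)) ≤ x ^ 2 * (1 / L ^ B') :=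
        mul_le_mul_of_nonneg_left hfin (by positivity)
    _ = x ^ 2 / L ^ B' := by rw [mul_one_div]

end Pool.Agent.VN
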