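import Pool.Agent.Lib.VN.Defs
import Pool.Agent.Lib.HLU.NetY

/-!
# Module Good: almost all pairs are good

`L = log x`, `z = zA A x`, `g = ff z`, `|g n| ≤ L^2` for `n ≤ 2x` (as in `VK/WeightsShort.lean`: `lp_le_sq`, `nuz_le`, `DZ_inv_le A`). Take `K' = 2`, `B' = 4 a + 4 + 6`, where `a = A2 + B1 + 2`.
For `v ∈ T` and a base point `b ∈ {0, x - H}`: `net_y (τ := ℕ) a 4` with `P = T`, `Q = T.card`, `D u n = g(n + (v+b)) g(n + (u+b))`: for every `y ≤ x` the hypothesis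
`∑_(u ∈ T) |∑_(n ≤ y) D u n|^2 ≤ |T| x^2/L^(4a+10)` is `MSP` for `tr T b` (`sum_tr`; `tr_zero` for `b = 0`) with `h n = g(n + (v+b)) 1_(n ≤ y)`. So there is `E_b v ⊆ T` with at most `|T|/L^a` elements such
that for `u ∉ E_b v` and all `y ≤ x`: `|∑_(n ≤ y) g(n+v+b) g(n+u+b)| ≤ x/L^a`. Let `P` be the pairs `(u, v)` with `u ∈ E_0 v ∪ E_(x-H) v`: `|P| ≤ 2 |T|^2/L^a ≤ |T|^2/L^A2`.
For `(u, v) ∉ P` and `β + H ≤ x`, with `G y = ∑_(n ≤ y) g(n+u) g(n+v)`: `∑_(n ≤ x) g(n+u+β) g(n+v+β) = G(x+β) - G(β)`, `|G β| ≤ x/L^a` as `β ≤ x`, and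
`G(x+β) = G(x-H) + ∑_(n ≤ β+H) g(n+u+(x-H)) g(n+v+(x-H))`, two terms `≤ x/L^a` as `x - H ≤ x`, `β + H ≤ x`. Total `3x/L^a ≤ x/L^B1` (`L ≥ 3`). (`VK/FirstAll.lean`, `sum_shift`: splitting of a sum.)
-/

set_option autoImplicit false

open Finset Filter

namespace Pool.Agent.VN

open Pool.Agent.HLT

namespace GoodAux

open Pool.Agent.HLU Pool.Agent.HLB Pool.Agent.HL

lemma ff_bd {A x : ℕ} (hL : 2 ≤ Real.log x) (hD : (DZ (zA A x))⁻¹ ≤ Real.log x) (n : ℕ)
    (hn : n ≤ 2 * x) : |ff (zA A x) n| ≤ Real.log x ^ 2 := by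
  have h1 := lp_le_sq hL hn
  have h2 := lp_nonneg n
  have h3 := nuz_nonneg (zA A x) n
  have h4 : nuz (zA A x) n ≤ Real.log x ^ 2 := (nuz_le (zA A x) n).trans (hD.trans (by nlinarith only [hL]))
  unfold ff
  rw [abs_le]
  constructor <;> linarith only [h2, h4, h1, h3]

lemma sum_shift (g : ℕ → ℝ) (c y : ℕ) :
    ∑ n ∈ Icc 1 (y + c), g n = ∑ n ∈ Icc 1 c, g n + ∑ n ∈ Icc 1 y, g (n + c) := by
  induction y with
  | zero => simp
  | succ y ih =>
    rw [show y + 1 + c = y + c + 1 by ring, Finset.sum_Icc_succ_top (by omega), ih,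
      Finset.sum_Icc_succ_top (by omega), show y + 1 + c = y + c + 1 by ring]
    ring

lemma one_base (a A : ℕ) : ∀ᶠ x : ℕ in atTop, ∀ H : ℕ, H ≤ x → ∀ T ⊆ range (H + 1), ∀ b : ℕ,
    b + H ≤ x → MSP A 2 (4 * a + 4 + 6) x (tr T b) → ∀ v ∈ T, ∃ E ⊆ T,
      (E.card : ℝ) ≤ T.card / Real.log x ^ a ∧ ∀ u ∈ T, u ∉ E → ∀ y : ℕ, y ≤ x →
        |∑ n ∈ Icc 1 y, ff (zA A x) (n + (u + b)) * ff (zA A x) (n + (v + b))| ≤
          x / Real.log x ^ a := by
  filter_upwards [net_y (τ := ℕ) a 4, DZ_inv_le A, ev_log 2] with x h1 hD hL H hH T hT b hb hM v hv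
  have hL0 : 0 < Real.log x := by linarith
  have hTH : ∀ t ∈ T, t ≤ H := by
    intro t ht
    have := Finset.mem_range.mp (hT ht)
    omega
  obtain ⟨E, hE, hEc, hE'⟩ := h1 T
    (fun u n => ((ff (zA A x) (n + (u + b)) * ff (zA A x) (n + (v + b)) : ℝ) : ℂ)) T.card
    (Nat.cast_nonneg _) (fun u hu n hn => by
      rw [Complex.norm_real, Real.norm_eq_abs, abs_mul, show (4 : ℕ) = 2 + 2 by norm_num, pow_add]
      rw [mem_Icc] at hn
      have e1 := hTH u hu
      have e2 := hTH v hv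
      exact mul_le_mul (ff_bd hL hD _ (by omega)) (ff_bd hL hD _ (by omega)) (abs_nonneg _)
        (by positivity))
    (fun y hy => by
      have h3 := hM.2 (fun n => if n ≤ y then (ff (zA A x) (n + (v + b)) : ℂ) else 0)
        (fun n hn => by
          split_ifs
          · rw [Complex.norm_real, Real.norm_eq_abs]
            rw [mem_Icc] at hn
            have e2 := hTH v hv
            exact ff_bd hL hD _ (by omega)
          · rw [norm_zero]
            positivity)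
      rw [sum_tr, tr_card] at h3
      refine le_trans (le_of_eq ?_) h3
      refine Finset.sum_congr rfl fun t _ => ?_
      congr 2
      simp only [ite_mul, zero_mul]
      rw [← Finset.sum_filter]
      refine Finset.sum_congr ?_ fun n _ => ?_
      · ext n
        simp only [mem_Icc, mem_filter]
        omega
      · push_cast
        ring)
  refine ⟨E, hE, hEc, fun u hu huE y hy => ?_⟩
  have h4 := hE' u hu huE y hy
  rw [← Complex.ofReal_sum, Complex.norm_real, Real.norm_eq_abs] at h4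
  exact h4

end GoodAux

open GoodAux Pool.Agent.HLU Pool.Agent.HLB Pool.Agent.HL in
theorem good_pairs (A2 B1 : ℕ) : ∃ K' B' : ℕ, ∀ A : ℕ, ∀ᶠ x : ℕ in atTop, ∀ H : ℕ, H ≤ x → ∀ T ⊆ range (H + 1),
    MSP A K' B' x T → MSP A K' B' x (tr T (x - H)) →
    ∃ P ⊆ T ×ˢ T, (P.card : ℝ) ≤ (T.card : ℝ) ^ 2 / Real.log x ^ A2 ∧
      ∀ u ∈ T, ∀ v ∈ T, (u, v) ∉ P → GoodP A B1 x H u v := by
  classical
  refine ⟨2, 4 * (A2 + B1 + 2) + 4 + 6, fun A => ?_⟩
  filter_upwards [one_base (A2 + B1 + 2) A, ev_log 3] with x h1 hL H hH T hT hM0 hM1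
  set a : ℕ := A2 + B1 + 2 with ha
  set L : ℝ := Real.log x with hLd
  have hL0 : 0 < L := by linarith
  have hL1 : 1 ≤ L := by linarith
  have hx0 : (0 : ℝ) ≤ x := Nat.cast_nonneg x
  have hb : ∀ v : ℕ, ∃ E0 ⊆ T, ∃ E1 ⊆ T, v ∈ T → ((E0.card : ℝ) ≤ T.card / L ^ a ∧
      (E1.card : ℝ) ≤ T.card / L ^ a ∧ ∀ u ∈ T, u ∉ E0 → u ∉ E1 → ∀ y : ℕ, y ≤ x →
        |∑ n ∈ Icc 1 y, ff (zA A x) (n + u) * ff (zA A x) (n + v)| ≤ x / L ^ a ∧
        |∑ n ∈ Icc 1 y, ff (zA A x) (n + (u + (x - H))) * ff (zA A x) (n + (v + (x - H)))| ≤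
          x / L ^ a) := by
    intro v
    by_cases hv : v ∈ T
    · obtain ⟨E0, hE0, hc0, h0⟩ := h1 H hH T hT 0 (by omega) (by rw [tr_zero]; exact hM0) v hv
      obtain ⟨E1, hE1, hc1, h2⟩ := h1 H hH T hT (x - H) (by omega) hM1 v hv
      refine ⟨E0, hE0, E1, hE1, fun _ => ⟨hc0, hc1, fun u hu hu0 hu1 y hy => ⟨?_, h2 u hu hu1 y hy⟩⟩⟩
      have := h0 u hu hu0 y hy
      simpa using this
    · exact ⟨∅, Finset.empty_subset _, ∅, Finset.empty_subset _, fun h => absurd h hv⟩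
  choose E0 hE0 E1 hE1 hE using hb
  refine ⟨(T ×ˢ T).filter (fun p => p.1 ∈ E0 p.2 ∪ E1 p.2), Finset.filter_subset _ _, ?_, ?_⟩
  · have e1 : ((T ×ˢ T).filter (fun p => p.1 ∈ E0 p.2 ∪ E1 p.2)).card =
        ∑ v ∈ T, (E0 v ∪ E1 v).card := by
      rw [Finset.card_filter, Finset.sum_product_right]
      refine Finset.sum_congr rfl fun v _ => ?_
      rw [← Finset.card_filter]
      congr 1
      ext u
      simp only [Finset.mem_filter]
      constructor
      · exact fun h => h.2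
      · intro h
        refine ⟨?_, h⟩
        rcases Finset.mem_union.mp h with h | h
        · exact hE0 v h
        · exact hE1 v h
    rw [e1]
    push_cast
    have e2 : ∀ v ∈ T, ((E0 v ∪ E1 v).card : ℝ) ≤ 2 * (T.card / L ^ a) := by
      intro v hv
      have h3 := (hE v hv).1
      have h4 := (hE v hv).2.1
      have h5 : ((E0 v ∪ E1 v).card : ℝ) ≤ (E0 v).card + (E1 v).card := by
        exact_mod_cast Finset.card_union_le _ _
      linarith
    refine (Finset.sum_le_sum e2).trans ?_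
    rw [Finset.sum_const, nsmul_eq_mul]
    have e3 : (T.card : ℝ) * (2 * (T.card / L ^ a)) = (2 * (T.card : ℝ) ^ 2) / L ^ a := by ring
    rw [e3, div_le_div_iff₀ (by positivity) (by positivity)]
    have e4 : L ^ a = L ^ A2 * L ^ (B1 + 2) := by rw [ha, ← pow_add]; congr 1
    have e5 : (2 : ℝ) ≤ L ^ (B1 + 2) := by
      calc (2 : ℝ) ≤ L ^ 1 := by rw [pow_one]; linarith
        _ ≤ L ^ (B1 + 2) := pow_le_pow_right₀ hL1 (by omega)
    rw [e4]
    have e6 : 0 ≤ (T.card : ℝ) ^ 2 * L ^ A2 := by positivity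
    nlinarith
  · intro u hu v hv huv β hβ
    have hu' : u ∉ E0 v ∧ u ∉ E1 v := by
      rw [Finset.mem_filter, not_and] at huv
      have := huv (Finset.mem_product.mpr ⟨hu, hv⟩)
      rw [Finset.mem_union, not_or] at this
      exact this
    have hh := (hE v hv).2.2 u hu hu'.1 hu'.2
    set g : ℕ → ℝ := fun n => ff (zA A x) (n + u) * ff (zA A x) (n + v) with hg
    have s1 := sum_shift g β x
    have s2 := sum_shift g (x - H) (β + H)
    have e0 : β + H + (x - H) = x + β := by omega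
    rw [e0] at s2
    have t0 := (hh β (by omega)).1
    have t1 := (hh (x - H) (by omega)).1
    have t2 := (hh (β + H) hβ).2
    have q1 : ∑ n ∈ Icc 1 x, ff (zA A x) (n + (u + β)) * ff (zA A x) (n + (v + β)) =
        ∑ n ∈ Icc 1 x, g (n + β) := by
      refine Finset.sum_congr rfl fun n _ => ?_
      simp only [hg]
      congr 2 <;> omega
    have q2 : ∑ n ∈ Icc 1 (β + H), ff (zA A x) (n + (u + (x - H))) *
        ff (zA A x) (n + (v + (x - H))) = ∑ n ∈ Icc 1 (β + H), g (n + (x - H)) := by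
      refine Finset.sum_congr rfl fun n _ => ?_
      simp only [hg]
      congr 2 <;> omega
    rw [q2] at t2
    rw [q1]
    have t3 : |∑ n ∈ Icc 1 x, g (n + β)| ≤ 3 * (x / L ^ a) := by
      have : ∑ n ∈ Icc 1 x, g (n + β) = ∑ n ∈ Icc 1 (x - H), g n +
          ∑ n ∈ Icc 1 (β + H), g (n + (x - H)) - ∑ n ∈ Icc 1 β, g n := by linarith
      rw [this]
      have a0 := abs_le.mp t0
      have a1 := abs_le.mp t1
      have a2 := abs_le.mp t2
      rw [abs_le]
      constructor <;> linarith [a0.1, a0.2, a1.1, a1.2, a2.1, a2.2]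
    refine t3.trans ?_
    have e3 : 3 * ((x : ℝ) / L ^ a) = (3 * x) / L ^ a := by ring
    rw [e3, div_le_div_iff₀ (by positivity) (by positivity)]
    have e4 : L ^ a = L ^ B1 * L ^ (A2 + 2) := by rw [ha, ← pow_add]; congr 1; ring
    have e5 : (3 : ℝ) ≤ L ^ (A2 + 2) := by
      calc (3 : ℝ) ≤ L ^ 1 := by rw [pow_one]; linarith
        _ ≤ L ^ (A2 + 2) := pow_le_pow_right₀ hL1 (by omega)
    rw [e4]
    have e6 : 0 ≤ (x : ℝ) * L ^ B1 := by positivity
    nlinarith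

end Pool.Agent.VN
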