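import Mathlib

/-!
# Module Subsets: the `D`-element subsets that contain a bad pair

With `N = |T|`: for `u ≠ v` in `T` the number of `D`-subsets containing both is `C(N-2, D-2)` if `D ≥ 2` (bijection `S ↦ S \ {u, v}`; it is `0` for `D ≤ 1`), and `N (N-1) C(N-2, D-2) = D (D-1) C(N, D)`
(`Nat.succ_mul_choose_eq` twice). Union over the pairs of `P` with `u ≠ v`: `#{bad S} N (N-1) ≤ |P| D^2 C(N, D)`, and `N^2 ≤ 2 N (N-1)` for `N ≥ 2`; for `N ≤ 1` no `S` is bad.
-/

set_option autoImplicit false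

open Finset

namespace Pool.Agent.VN

private lemma choose_id (n d : ℕ) :
    (n + 2) * (n + 1) * n.choose d = (n + 2).choose (d + 2) * ((d + 2) * (d + 1)) := by
  have h1 := Nat.add_one_mul_choose_eq n d
  have h2 := Nat.add_one_mul_choose_eq (n + 1) (d + 1)
  have e1 : n + 1 + 1 = n + 2 := rfl
  have e2 : d + 1 + 1 = d + 2 := rfl
  rw [e1, e2] at h2
  calc (n + 2) * (n + 1) * n.choose d = (n + 2) * ((n + 1) * n.choose d) := by ring
    _ = (n + 2) * ((n + 1).choose (d + 1) * (d + 1)) := by rw [h1]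
    _ = ((n + 2) * (n + 1).choose (d + 1)) * (d + 1) := by ring
    _ = (n + 2).choose (d + 2) * (d + 2) * (d + 1) := by rw [h2]
    _ = _ := by ring

private lemma pair_count (T : Finset ℕ) (D u v : ℕ) (huv : u ≠ v) (hu : u ∈ T) (hv : v ∈ T) :
    ((T.powersetCard (D + 2)).filter (fun S => u ∈ S ∧ v ∈ S)).card ≤ (T.card - 2).choose D := by
  have h1 : ((T.erase u).erase v).card = T.card - 2 := by
    rw [card_erase_of_mem (mem_erase.mpr ⟨huv.symm, hv⟩), card_erase_of_mem hu]
    omega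
  rw [← h1, ← card_powersetCard]
  refine card_le_card_of_injOn (fun S => (S.erase u).erase v) ?_ ?_
  · intro S hS
    rw [mem_coe, mem_filter, mem_powersetCard] at hS
    obtain ⟨⟨h2, h3⟩, h4, h5⟩ := hS
    rw [mem_coe, mem_powersetCard]
    refine ⟨erase_subset_erase _ (erase_subset_erase _ h2), ?_⟩
    rw [card_erase_of_mem (mem_erase.mpr ⟨huv.symm, h5⟩), card_erase_of_mem h4]
    omega
  · intro S hS S' hS' h
    rw [mem_coe, mem_filter] at hS hS'
    have h6 : insert u (insert v ((S.erase u).erase v)) = S := by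
      rw [insert_erase (mem_erase.mpr ⟨huv.symm, hS.2.2⟩), insert_erase hS.2.1]
    have h7 : insert u (insert v ((S'.erase u).erase v)) = S' := by
      rw [insert_erase (mem_erase.mpr ⟨huv.symm, hS'.2.2⟩), insert_erase hS'.2.1]
    have h8 : (S.erase u).erase v = (S'.erase u).erase v := h
    rw [← h6, ← h7, h8]

theorem subsets_bad (T : Finset ℕ) (P : Finset (ℕ × ℕ)) (D : ℕ) (X : Finset (Finset ℕ))
    (hX : ∀ S ∈ X, S ∈ T.powersetCard D ∧ ∃ u ∈ S, ∃ v ∈ S, u ≠ v ∧ (u, v) ∈ P) :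
    (X.card : ℝ) * (T.card : ℝ) ^ 2 ≤ 2 * (D : ℝ) ^ 2 * P.card * (T.powersetCard D).card := by
  rcases X.eq_empty_or_nonempty with rfl | ⟨S0, hS0⟩
  · simp only [card_empty, Nat.cast_zero, zero_mul]
    positivity
  obtain ⟨h1, u0, hu0, v0, hv0, huv0, _⟩ := hX S0 hS0
  rw [mem_powersetCard] at h1
  have h2 : 2 ≤ S0.card := by
    have : ({u0, v0} : Finset ℕ).card = 2 := card_pair huv0
    rw [← this]
    refine card_le_card ?_
    intro z hz
    rw [mem_insert, mem_singleton] at hz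
    rcases hz with rfl | rfl
    · exact hu0
    · exact hv0
  obtain ⟨d, rfl⟩ : ∃ d, D = d + 2 := ⟨D - 2, by omega⟩
  have h3 : 2 ≤ T.card := le_trans h2 (card_le_card h1.1)
  obtain ⟨n, hn⟩ : ∃ n, T.card = n + 2 := ⟨T.card - 2, by omega⟩
  have h4 : X ⊆ P.biUnion (fun p => if p.1 ≠ p.2 ∧ p.1 ∈ T ∧ p.2 ∈ T then
      (T.powersetCard (d + 2)).filter (fun S => p.1 ∈ S ∧ p.2 ∈ S) else ∅) := by
    intro S hS
    obtain ⟨h5, u, hu, v, hv, huv, hP⟩ := hX S hS
    rw [mem_biUnion]
    refine ⟨(u, v), hP, ?_⟩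
    have h6 := (mem_powersetCard.mp h5).1
    rw [if_pos ⟨huv, h6 hu, h6 hv⟩, mem_filter]
    exact ⟨h5, hu, hv⟩
  have h5 : X.card ≤ P.card * n.choose d := by
    refine (card_le_card h4).trans (card_biUnion_le.trans ?_)
    refine (sum_le_sum (g := fun _ => n.choose d) fun p _ => ?_).trans ?_
    · split_ifs with hp
      · have := pair_count T d p.1 p.2 hp.1 hp.2.1 hp.2.2
        rwa [hn, Nat.add_sub_cancel] at this
      · simp
    · rw [sum_const, smul_eq_mul]
  rw [card_powersetCard, hn]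
  have h6 : X.card * (n + 2) ^ 2 ≤ 2 * (d + 2) ^ 2 * P.card * (n + 2).choose (d + 2) := by
    calc X.card * (n + 2) ^ 2 ≤ (P.card * n.choose d) * (2 * ((n + 2) * (n + 1))) := by
          refine Nat.mul_le_mul h5 ?_
          nlinarith
      _ = 2 * P.card * ((n + 2) * (n + 1) * n.choose d) := by ring
      _ = 2 * P.card * ((n + 2).choose (d + 2) * ((d + 2) * (d + 1))) := by rw [choose_id]
      _ ≤ 2 * P.card * ((n + 2).choose (d + 2) * ((d + 2) * (d + 2))) := by
          refine Nat.mul_le_mul_left _ (Nat.mul_le_mul_left _ (Nat.mul_le_mul_left _ ?_))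
          omega
      _ = _ := by ring
  exact_mod_cast h6

end Pool.Agent.VN
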