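import Pool.Agent.Lib.VN.Gram
import Pool.Agent.Lib.VN.Good
import Pool.Agent.Lib.VN.Subsets

/-!
# Module Univ: almost all `D`-element subsets have the mean square property at all base points

`msp_gram K B` gives `B1, C`; `good_pairs (A2 + 2 K2 + 1) B1` gives `K', B'` and the set `P`; `X` = the `S ∈ T.powersetCard D` with a pair `u ≠ v` in `P`; `subsets_bad`: `|X| N^2 ≤ 2 D^2 |P| C(N,D) ≤ 2 L^(2 K2) N^2 L^(-A2-2K2-1) C(N,D)`.
If `N = 0`, then `powersetCard D` is empty for `D ≥ 1` (`L^C ≤ D`, `L ≥ 2`).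
-/

set_option autoImplicit false

open Finset Filter

namespace Pool.Agent.VN

open Pool.Agent.HLT

theorem univ_msp (K B K2 A2 : ℕ) : ∃ K' B' C : ℕ, ∀ A : ℕ, ∀ᶠ x : ℕ in atTop, ∀ H : ℕ, H ≤ x → ∀ T ⊆ range (H + 1),
    MSP A K' B' x T → MSP A K' B' x (tr T (x - H)) →
    ∀ D : ℕ, Real.log x ^ C ≤ D → (D : ℝ) ≤ Real.log x ^ K2 →
    ∃ X ⊆ T.powersetCard D, (X.card : ℝ) ≤ (T.powersetCard D).card / Real.log x ^ A2 ∧
      ∀ S ∈ T.powersetCard D, S ∉ X → ∀ β : ℕ, β + H ≤ x → MSP A K B x (tr S β) := by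
  classical
  obtain ⟨B1, C, hG⟩ := msp_gram K B
  obtain ⟨K', B', hP⟩ := good_pairs (A2 + 2 * K2 + 1) B1
  refine ⟨K', B', C, fun A => ?_⟩
  filter_upwards [hG A, hP A, HLU.ev_log 2] with x hG hP hL H hH T hT hM0 hM1 D hD1 hD2
  obtain ⟨P, hPT, hPc, hPg⟩ := hP H hH T hT hM0 hM1
  set L : ℝ := Real.log x with hLd
  have hL0 : 0 < L := by linarith
  have hL1 : 1 ≤ L := by linarith
  refine ⟨(T.powersetCard D).filter (fun S => ∃ u ∈ S, ∃ v ∈ S, u ≠ v ∧ (u, v) ∈ P),
    Finset.filter_subset _ _, ?_, ?_⟩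
  · have h1 := subsets_bad T P D
      ((T.powersetCard D).filter (fun S => ∃ u ∈ S, ∃ v ∈ S, u ≠ v ∧ (u, v) ∈ P))
      (fun S hS => Finset.mem_filter.mp hS)
    rcases Nat.eq_zero_or_pos T.card with h0 | h0
    · have hTe : T = ∅ := Finset.card_eq_zero.mp h0
      have hDpos : 0 < D := by
        have : (1 : ℝ) ≤ D := le_trans (one_le_pow₀ hL1) hD1
        have h2 : (0 : ℝ) < D := by linarith
        exact_mod_cast h2
      have h3 : (T.powersetCard D) = ∅ := by
        rw [Finset.powersetCard_eq_empty, h0]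
        exact hDpos
      rw [h3]
      simp
    · have hN : (0 : ℝ) < T.card := by exact_mod_cast h0
      have hD0 : (0 : ℝ) ≤ D := Nat.cast_nonneg _
      have h2 : (D : ℝ) ^ 2 ≤ L ^ (2 * K2) := by
        have := pow_le_pow_left₀ hD0 hD2 2
        rwa [← pow_mul, mul_comm K2 2] at this
      set c : ℝ := ((T.powersetCard D).card : ℝ) with hc
      have hc0 : 0 ≤ c := Nat.cast_nonneg _
      have h3 : 2 * (D : ℝ) ^ 2 * P.card * c ≤
          2 * L ^ (2 * K2) * ((T.card : ℝ) ^ 2 / L ^ (A2 + 2 * K2 + 1)) * c := by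
        refine mul_le_mul_of_nonneg_right ?_ hc0
        exact mul_le_mul (mul_le_mul_of_nonneg_left h2 (by norm_num)) hPc (Nat.cast_nonneg _)
          (by positivity)
      have h4 : 2 * L ^ (2 * K2) * ((T.card : ℝ) ^ 2 / L ^ (A2 + 2 * K2 + 1)) * c =
          (2 / L) * (c / L ^ A2) * (T.card : ℝ) ^ 2 := by
        rw [show A2 + 2 * K2 + 1 = A2 + (2 * K2) + 1 by ring, pow_succ L (A2 + 2 * K2), pow_add L A2]
        field_simp
      have h5 : 2 / L ≤ 1 := by
        rw [div_le_one hL0]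
        exact hL
      have h6 : (2 / L) * (c / L ^ A2) * (T.card : ℝ) ^ 2 ≤ (c / L ^ A2) * (T.card : ℝ) ^ 2 := by
        refine mul_le_mul_of_nonneg_right ?_ (by positivity)
        have : 0 ≤ c / L ^ A2 := by positivity
        nlinarith
      exact le_of_mul_le_mul_right ((h1.trans h3).trans (h4.le.trans h6)) (by positivity)
  · intro S hS hSX β hβ
    have h1 := Finset.mem_powersetCard.mp hS
    refine hG H hH S (h1.1.trans hT) ?_ ?_ β hβ
    · rw [h1.2]
      exact hD1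
    · intro u hu v hv huv
      refine hPg u (h1.1 hu) v (h1.1 hv) ?_
      intro h2
      exact hSX (Finset.mem_filter.mpr ⟨hS, u, hu, v, hv, huv, h2⟩)

end Pool.Agent.VN
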