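import Pool.Agent.Lib.VN.Dil
import Pool.Agent.Lib.HLU.NetY

/-!
# Module GoodDil: for almost all `t ∈ T` all the multiples `d t`, `d ≤ D0 ≤ (log x)^K`, have small correlations

Like `VN/Good.lean` (`good_pairs`, DONE: copy its proof). `L = log x`, `z = zA A x`, `g = ff z`, `|g n| ≤ L^2` for `n ≤ 2x`. Take `K' = 2`, `a = A2 + B1 + K + 2`, `B' = 4 a + 4 + 6`.
For `d ∈ [1, D0]` and the base point `b ∈ {0, x - d H}` (`d H ≤ D0 H ≤ x`): `net_y (τ := ℕ) a 4` with `P = T`, `Q = T.card`, `D t n = g(n + b) g(n + d t + b)` (the sums over `t ∈ T` are sums over `u ∈ dil T d`,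
`Finset.sum_image`, `d ≥ 1`, `card_image_of_injective`): the hypothesis for each `y ≤ x` is `MSP` for `tr (dil T d) b` with `h n = g(n + b) 1_(n ≤ y)` (`sum_tr`, `tr_card`). So outside a set of at most `|T|/L^a` elements `t`,
for all `y ≤ x`: `|∑_(n ≤ y) g(n+b) g(n+dt+b)| ≤ x/L^a`. `E` = union over `d ≤ D0` and the two base points: `|E| ≤ 2 D0 |T|/L^a ≤ |T|/L^A2`.
For `t ∉ E`, `d`, `y + d H ≤ 2x`: if `y ≤ x` take `b = 0`; else `∑_(n ≤ y) = ∑_(n ≤ x - dH) + ∑_(n ≤ y - (x - dH)) g(n + b) g(n + dt + b)`, `b = x - d H`, both `≤ x/L^a`. Total `2x/L^a ≤ x/L^B1`.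
-/

set_option autoImplicit false

open Finset Filter

namespace Pool.Agent.VN

open Pool.Agent.HLT

namespace GoodDilAux

open Pool.Agent.HLU Pool.Agent.HLB Pool.Agent.HL

private lemma ff_bd {A x : ℕ} (hL : 2 ≤ Real.log x) (hD : (DZ (zA A x))⁻¹ ≤ Real.log x) (n : ℕ)
    (hn : n ≤ 2 * x) : |ff (zA A x) n| ≤ Real.log x ^ 2 := by
  have h1 := lp_le_sq hL hn
  have h2 := lp_nonneg n
  have h3 := nuz_nonneg (zA A x) n
  have h4 : nuz (zA A x) n ≤ Real.log x ^ 2 := (nuz_le (zA A x) n).trans (hD.trans (by nlinarith only [hL]))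
  unfold ff
  rw [abs_le]
  constructor <;> linarith only [h2, h4, h1, h3]

private lemma sum_shift (g : ℕ → ℝ) (c y : ℕ) :
    ∑ n ∈ Icc 1 (y + c), g n = ∑ n ∈ Icc 1 c, g n + ∑ n ∈ Icc 1 y, g (n + c) := by
  induction y with
  | zero => simp
  | succ y ih =>
    rw [show y + 1 + c = y + c + 1 by ring, Finset.sum_Icc_succ_top (by omega), ih,
      Finset.sum_Icc_succ_top (by omega), show y + 1 + c = y + c + 1 by ring]
    ring

private lemma dil_inj {d : ℕ} (hd : 1 ≤ d) : Function.Injective (fun t : ℕ => d * t) :=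
  fun _ _ h => Nat.eq_of_mul_eq_mul_left (by omega) h

private lemma dil_card (T : Finset ℕ) {d : ℕ} (hd : 1 ≤ d) : (dil T d).card = T.card :=
  Finset.card_image_of_injective _ (dil_inj hd)

private lemma sum_dil {M : Type} [AddCommMonoid M] (T : Finset ℕ) {d : ℕ} (hd : 1 ≤ d) (f : ℕ → M) :
    ∑ u ∈ dil T d, f u = ∑ u ∈ T, f (d * u) := by
  unfold dil
  rw [Finset.sum_image (fun _ _ _ _ h => dil_inj hd h)]

private lemma one_base (a A : ℕ) : ∀ᶠ x : ℕ in atTop, ∀ H d : ℕ, 1 ≤ d → ∀ T ⊆ range (H + 1), ∀ b : ℕ,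
    b + d * H ≤ x → MSP A 2 (4 * a + 4 + 6) x (tr (dil T d) b) → ∃ E ⊆ T,
      (E.card : ℝ) ≤ T.card / Real.log x ^ a ∧ ∀ t ∈ T, t ∉ E → ∀ y : ℕ, y ≤ x →
        |∑ n ∈ Icc 1 y, ff (zA A x) (n + b) * ff (zA A x) (n + (d * t + b))| ≤
          x / Real.log x ^ a := by
  filter_upwards [net_y (τ := ℕ) a 4, DZ_inv_le A, ev_log 2] with x h1 hD hL H d hd T hT b hb hM
  have hL0 : 0 < Real.log x := by linarith
  have hTH : ∀ t ∈ T, d * t ≤ d * H := by
    intro t ht
    have := Finset.mem_range.mp (hT ht)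
    exact Nat.mul_le_mul_left d (by omega)
  obtain ⟨E, hE, hEc, hE'⟩ := h1 T
    (fun t n => ((ff (zA A x) (n + b) * ff (zA A x) (n + (d * t + b)) : ℝ) : ℂ)) T.card
    (Nat.cast_nonneg _) (fun u hu n hn => by
      rw [Complex.norm_real, Real.norm_eq_abs, abs_mul, show (4 : ℕ) = 2 + 2 by norm_num, pow_add]
      rw [mem_Icc] at hn
      have e1 := hTH u hu
      exact mul_le_mul (ff_bd hL hD _ (by omega)) (ff_bd hL hD _ (by omega)) (abs_nonneg _)
        (by positivity))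
    (fun y hy => by
      have h3 := hM.2 (fun n => if n ≤ y then (ff (zA A x) (n + b) : ℂ) else 0)
        (fun n hn => by
          split_ifs
          · rw [Complex.norm_real, Real.norm_eq_abs]
            rw [mem_Icc] at hn
            exact ff_bd hL hD _ (by omega)
          · rw [norm_zero]
            positivity)
      rw [sum_tr, tr_card, sum_dil T hd, dil_card T hd] at h3
      refine le_trans (le_of_eq ?_) h3
      refine Finset.sum_congr rfl fun t _ => ?_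
      congr 2
      simp only [ite_mul, zero_mul]
      rw [← Finset.sum_filter]
      refine Finset.sum_congr ?_ fun n _ => ?_
      · ext n
        simp only [mem_Icc, mem_filter]
        omega
      · push_cast
        ring)
  refine ⟨E, hE, hEc, fun u hu huE y hy => ?_⟩
  have h4 := hE' u hu huE y hy
  rw [← Complex.ofReal_sum, Complex.norm_real, Real.norm_eq_abs] at h4
  exact h4

end GoodDilAux

open GoodDilAux Pool.Agent.HLU Pool.Agent.HLB Pool.Agent.HL in
theorem good_dil (K A2 B1 : ℕ) : ∃ K' B' : ℕ, ∀ A : ℕ, ∀ᶠ x : ℕ in atTop, ∀ H D0 : ℕ, D0 * H ≤ x →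
    (D0 : ℝ) ≤ Real.log x ^ K → ∀ T ⊆ range (H + 1),
    (∀ d ∈ Icc 1 D0, MSP A K' B' x (dil T d) ∧ MSP A K' B' x (tr (dil T d) (x - d * H))) →
    ∃ E ⊆ T, (E.card : ℝ) ≤ (T.card : ℝ) / Real.log x ^ A2 ∧ ∀ t ∈ T, t ∉ E → ∀ d ∈ Icc 1 D0, ∀ y : ℕ,
      y + d * H ≤ 2 * x →
      |∑ n ∈ Icc 1 y, ff (zA A x) n * ff (zA A x) (n + d * t)| ≤ x / Real.log x ^ B1 := by
  classical
  refine ⟨2, 4 * (A2 + B1 + K + 2) + 4 + 6, fun A => ?_⟩
  filter_upwards [one_base (A2 + B1 + K + 2) A, ev_log 3] with x h1 hL H D0 hDH hD0 T hT hM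
  set a : ℕ := A2 + B1 + K + 2 with ha
  set L : ℝ := Real.log x with hLd
  have hL0 : 0 < L := by linarith
  have hL1 : 1 ≤ L := by linarith
  have hx0 : (0 : ℝ) ≤ x := Nat.cast_nonneg x
  have hb : ∀ d : ℕ, ∃ E0 ⊆ T, ∃ E1 ⊆ T, d ∈ Icc 1 D0 → ((E0.card : ℝ) ≤ T.card / L ^ a ∧
      (E1.card : ℝ) ≤ T.card / L ^ a ∧ ∀ t ∈ T, t ∉ E0 → t ∉ E1 → ∀ y : ℕ, y ≤ x →
        |∑ n ∈ Icc 1 y, ff (zA A x) n * ff (zA A x) (n + d * t)| ≤ x / L ^ a ∧
        |∑ n ∈ Icc 1 y, ff (zA A x) (n + (x - d * H)) * ff (zA A x) (n + (d * t + (x - d * H)))| ≤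
          x / L ^ a) := by
    intro d
    by_cases hd : d ∈ Icc 1 D0
    · have hd1 := (mem_Icc.mp hd).1
      have hd2 : d * H ≤ x := (Nat.mul_le_mul_right H (mem_Icc.mp hd).2).trans hDH
      obtain ⟨E0, hE0, hc0, h0⟩ := h1 H d hd1 T hT 0 (by omega) (by rw [tr_zero]; exact (hM d hd).1)
      obtain ⟨E1, hE1, hc1, h2⟩ := h1 H d hd1 T hT (x - d * H) (by omega) (hM d hd).2
      refine ⟨E0, hE0, E1, hE1, fun _ => ⟨hc0, hc1, fun u hu hu0 hu1 y hy => ⟨?_, h2 u hu hu1 y hy⟩⟩⟩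
      have := h0 u hu hu0 y hy
      simpa using this
    · exact ⟨∅, Finset.empty_subset _, ∅, Finset.empty_subset _, fun h => absurd h hd⟩
  choose E0 hE0 E1 hE1 hE using hb
  refine ⟨(Icc 1 D0).biUnion (fun d => E0 d ∪ E1 d), ?_, ?_, ?_⟩
  · intro t ht
    obtain ⟨d, _, h⟩ := Finset.mem_biUnion.mp ht
    rcases Finset.mem_union.mp h with h | h
    · exact hE0 d h
    · exact hE1 d h
  · have e1 : (((Icc 1 D0).biUnion (fun d => E0 d ∪ E1 d)).card : ℝ) ≤
        ∑ d ∈ Icc 1 D0, ((E0 d ∪ E1 d).card : ℝ) := by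
      exact_mod_cast Finset.card_biUnion_le
    have e2 : ∀ d ∈ Icc 1 D0, ((E0 d ∪ E1 d).card : ℝ) ≤ 2 * (T.card / L ^ a) := by
      intro d hd
      have h3 := (hE d hd).1
      have h4 := (hE d hd).2.1
      have h5 : ((E0 d ∪ E1 d).card : ℝ) ≤ (E0 d).card + (E1 d).card := by
        exact_mod_cast Finset.card_union_le _ _
      linarith
    refine (e1.trans (Finset.sum_le_sum e2)).trans ?_
    rw [Finset.sum_const, nsmul_eq_mul, Nat.card_Icc, Nat.add_sub_cancel]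
    have hT0 : (0 : ℝ) ≤ T.card / L ^ a := by positivity
    have e3 : (D0 : ℝ) * (2 * (T.card / L ^ a)) ≤ L ^ K * (2 * (T.card / L ^ a)) :=
      mul_le_mul_of_nonneg_right hD0 (by positivity)
    refine e3.trans ?_
    have e3' : L ^ K * (2 * ((T.card : ℝ) / L ^ a)) = (2 * L ^ K * (T.card : ℝ)) / L ^ a := by ring
    rw [e3', div_le_div_iff₀ (by positivity) (by positivity)]
    have e4 : L ^ a = L ^ A2 * L ^ K * L ^ (B1 + 2) := by
      rw [ha, ← pow_add, ← pow_add]; congr 1; ring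
    have e5 : (2 : ℝ) ≤ L ^ (B1 + 2) := by
      calc (2 : ℝ) ≤ L ^ 1 := by rw [pow_one]; linarith
        _ ≤ L ^ (B1 + 2) := pow_le_pow_right₀ hL1 (by omega)
    rw [e4]
    have e6 : 0 ≤ L ^ K * (T.card : ℝ) * L ^ A2 := by positivity
    nlinarith
  · intro t ht htE d hd y hy
    have ht' : t ∉ E0 d ∧ t ∉ E1 d := by
      constructor
      · intro h
        exact htE (Finset.mem_biUnion.mpr ⟨d, hd, Finset.mem_union_left _ h⟩)
      · intro h
        exact htE (Finset.mem_biUnion.mpr ⟨d, hd, Finset.mem_union_right _ h⟩)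
    have hh := (hE d hd).2.2 t ht ht'.1 ht'.2
    have hd2 : d * H ≤ x := (Nat.mul_le_mul_right H (mem_Icc.mp hd).2).trans hDH
    have t3 : |∑ n ∈ Icc 1 y, ff (zA A x) n * ff (zA A x) (n + d * t)| ≤ 2 * (x / L ^ a) := by
      have hp : 0 ≤ (x : ℝ) / L ^ a := by positivity
      by_cases hyx : y ≤ x
      · exact (hh y hyx).1.trans (by linarith)
      · set g : ℕ → ℝ := fun n => ff (zA A x) n * ff (zA A x) (n + d * t) with hg
        have s1 := sum_shift g (x - d * H) (y - (x - d * H))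
        have e0 : y - (x - d * H) + (x - d * H) = y := by omega
        rw [e0] at s1
        have t1 := (hh (x - d * H) (by omega)).1
        have t2 := (hh (y - (x - d * H)) (by omega)).2
        have q2 : ∑ n ∈ Icc 1 (y - (x - d * H)), ff (zA A x) (n + (x - d * H)) *
            ff (zA A x) (n + (d * t + (x - d * H))) =
            ∑ n ∈ Icc 1 (y - (x - d * H)), g (n + (x - d * H)) := by
          refine Finset.sum_congr rfl fun n _ => ?_
          simp only [hg]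
          congr 2
          omega
        rw [q2] at t2
        rw [s1]
        have a1 := abs_le.mp t1
        have a2 := abs_le.mp t2
        rw [abs_le]
        constructor <;> linarith [a1.1, a1.2, a2.1, a2.2]
    refine t3.trans ?_
    have e3 : 2 * ((x : ℝ) / L ^ a) = (2 * x) / L ^ a := by ring
    rw [e3, div_le_div_iff₀ (by positivity) (by positivity)]
    have e4 : L ^ a = L ^ B1 * L ^ (A2 + K + 2) := by rw [ha, ← pow_add]; congr 1; ring
    have e5 : (2 : ℝ) ≤ L ^ (A2 + K + 2) := by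
      calc (2 : ℝ) ≤ L ^ 1 := by rw [pow_one]; linarith
        _ ≤ L ^ (A2 + K + 2) := pow_le_pow_right₀ hL1 (by omega)
    rw [e4]
    have e6 : 0 ≤ (x : ℝ) * L ^ B1 := by positivity
    nlinarith

end Pool.Agent.VN
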