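import Pool.Agent.Lib.VN.Gram
import Pool.Agent.Lib.VN.GoodDil

/-!
# Module UnivDil: for almost all `t ∈ T`, ALL sets `{b t : b ∈ Q}`, `Q ⊆ [0, D0]`, `|Q| ≥ (log x)^C`, have the mean square property at all base points

`msp_gram K B` gives `B1, C`; `good_dil K2 A2 (B1 + 1)` gives `K', B'` and `E`. Let `t ∉ E` (`t ≥ 1`), `S = dil Q t = {t * b : b ∈ Q}`: `S ⊆ range (D0 * H + 1)`, `|S| = |Q|`. Apply `msp_gram` with `H := D0 * H`: for
`u = t b`, `v = t b'`, `b ≠ b'`, say `b < b'` (`GoodP` is symmetric in `u, v`), `d = b' - b ∈ [1, D0]`, `β + D0 H ≤ x`: with `G y = ∑_(n ≤ y) g n g(n + d t)`: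
`∑_(n ≤ x) g(n + (u+β)) g(n + (v+β)) = G(x + u + β) - G(u + β)`, and `x + u + β + d H ≤ x + β + (b + d) H ≤ x + β + D0 H ≤ 2x`. Each is `≤ x/L^(B1+1)`. (`VK/FirstAll.lean`, `sum_shift`.)
-/

set_option autoImplicit false

open Finset Filter

namespace Pool.Agent.VN

open Pool.Agent.HLT

namespace UnivDilAux

private lemma sum_shift (g : ℕ → ℝ) (c y : ℕ) :
    ∑ n ∈ Icc 1 (y + c), g n = ∑ n ∈ Icc 1 c, g n + ∑ n ∈ Icc 1 y, g (n + c) := by
  induction y with
  | zero => simp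
  | succ y ih =>
    rw [show y + 1 + c = y + c + 1 by ring, Finset.sum_Icc_succ_top (by omega), ih,
      Finset.sum_Icc_succ_top (by omega), show y + 1 + c = y + c + 1 by ring]
    ring

private lemma pair_lt {A B x H D0 t b b' β : ℕ} (hL : 2 ≤ Real.log x) (ht : t ≤ H)
    (hb' : b' ≤ D0) (hbb : b < b') (hβ : β + D0 * H ≤ x)
    (h : ∀ d ∈ Icc 1 D0, ∀ y : ℕ, y + d * H ≤ 2 * x →
      |∑ n ∈ Icc 1 y, ff (zA A x) n * ff (zA A x) (n + d * t)| ≤ x / Real.log x ^ (B + 1)) :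
    |∑ n ∈ Icc 1 x, ff (zA A x) (n + (t * b + β)) * ff (zA A x) (n + (t * b' + β))| ≤
      x / Real.log x ^ B := by
  obtain ⟨d, rfl⟩ : ∃ d, b' = b + d := ⟨b' - b, by omega⟩
  have hd : d ∈ Icc 1 D0 := by
    rw [Finset.mem_Icc]
    omega
  have h0 : t * b ≤ b * H := by
    rw [mul_comm]
    exact Nat.mul_le_mul_left b ht
  have h1 : (b + d) * H ≤ D0 * H := Nat.mul_le_mul_right H hb'
  rw [Nat.add_mul] at h1
  have e1 := h d hd (x + (t * b + β)) (by omega)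
  have e2 := h d hd (t * b + β) (by omega)
  have e3 := sum_shift (fun n => ff (zA A x) n * ff (zA A x) (n + d * t)) (t * b + β) x
  have e4 : ∑ n ∈ Icc 1 x, ff (zA A x) (n + (t * b + β)) * ff (zA A x) (n + (t * (b + d) + β)) =
      ∑ n ∈ Icc 1 (x + (t * b + β)), ff (zA A x) n * ff (zA A x) (n + d * t) -
      ∑ n ∈ Icc 1 (t * b + β), ff (zA A x) n * ff (zA A x) (n + d * t) := by
    rw [e3, add_sub_cancel_left]
    refine Finset.sum_congr rfl fun n _ => ?_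
    rw [show n + (t * (b + d) + β) = n + (t * b + β) + d * t by ring]
  rw [e4]
  refine (abs_sub _ _).trans ?_
  have hL0 : 0 < Real.log x := by linarith
  have e5 : (x : ℝ) / Real.log x ^ (B + 1) + x / Real.log x ^ (B + 1) ≤ x / Real.log x ^ B := by
    rw [pow_succ, ← two_mul, ← mul_div_assoc, div_le_div_iff₀ (by positivity) (by positivity)]
    have e6 : 0 ≤ (x : ℝ) * Real.log x ^ B := by positivity
    nlinarith
  linarith

end UnivDilAux

open UnivDilAux in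
theorem univ_dil (K B K2 A2 : ℕ) : ∃ K' B' C : ℕ, ∀ A : ℕ, ∀ᶠ x : ℕ in atTop, ∀ H D0 : ℕ, D0 * H ≤ x →
    (D0 : ℝ) ≤ Real.log x ^ K2 → ∀ T ⊆ Icc 1 H,
    (∀ d ∈ Icc 1 D0, MSP A K' B' x (dil T d) ∧ MSP A K' B' x (tr (dil T d) (x - d * H))) →
    ∃ E ⊆ T, (E.card : ℝ) ≤ (T.card : ℝ) / Real.log x ^ A2 ∧ ∀ t ∈ T, t ∉ E → ∀ Q ⊆ range (D0 + 1),
      Real.log x ^ C ≤ Q.card → ∀ β : ℕ, β + D0 * H ≤ x → MSP A K B x (tr (dil Q t) β) := by
  obtain ⟨B1, C, hG⟩ := msp_gram K B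
  obtain ⟨K', B', hP⟩ := good_dil K2 A2 (B1 + 1)
  refine ⟨K', B', C, fun A => ?_⟩
  filter_upwards [hG A, hP A, HLU.ev_log 2] with x hG hP hL H D0 hDH hD0 T hT hM
  have hT' : T ⊆ range (H + 1) := by
    intro t ht
    have := Finset.mem_Icc.mp (hT ht)
    rw [Finset.mem_range]
    omega
  obtain ⟨E, hET, hEc, hE⟩ := hP H D0 hDH hD0 T hT' hM
  refine ⟨E, hET, hEc, fun t ht htE Q hQ hQC β hβ => ?_⟩
  have ht1 := Finset.mem_Icc.mp (hT ht)
  have hinj : Function.Injective (fun b : ℕ => t * b) :=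
    fun _ _ h => Nat.eq_of_mul_eq_mul_left (by omega) h
  have hcard : (dil Q t).card = Q.card := Finset.card_image_of_injective _ hinj
  refine hG (D0 * H) hDH (dil Q t) ?_ ?_ ?_ β hβ
  · intro u hu
    obtain ⟨b, hb, rfl⟩ := Finset.mem_image.mp hu
    have hb' := Finset.mem_range.mp (hQ hb)
    rw [Finset.mem_range]
    have : t * b ≤ D0 * H := by
      rw [mul_comm]
      exact Nat.mul_le_mul (by omega) ht1.2
    omega
  · rw [hcard]
    exact hQC
  · intro u hu v hv huv γ hγ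
    obtain ⟨b, hb, rfl⟩ := Finset.mem_image.mp hu
    obtain ⟨b', hb', rfl⟩ := Finset.mem_image.mp hv
    have hb1 := Finset.mem_range.mp (hQ hb)
    have hb2 := Finset.mem_range.mp (hQ hb')
    have hne : b ≠ b' := fun h => huv (by rw [h])
    rcases lt_or_gt_of_ne hne with h | h
    · exact pair_lt hL ht1.2 (by omega) h hγ (hE t ht htE)
    · have := pair_lt hL ht1.2 (by omega) h hγ (hE t ht htE)
      refine le_trans (le_of_eq ?_) this
      congr 1
      exact Finset.sum_congr rfl fun n _ => mul_comm _ _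

end Pool.Agent.VN
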