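import Pool.Agent.Lib.VK.Final
import Pool.Agent.Lib.VN.HLMs
import Pool.Agent.Lib.VN.Univ
import Pool.Agent.Lib.VN.UnivDil

/-!
# Universal families of sets of shifts

`UB m K A B x T`: independence of every sequence and the Hardy-Littlewood formula, for almost all `t` in `∏ T i`.
`SpB F b0 H T`: the spectral hypothesis at scale `H` without a condition on the position of `T`.
-/

set_option autoImplicit false

open Finset Filter

namespace Pool.Agent.VN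

open Pool.Agent.HLB Pool.Agent.HL Pool.Agent.HLT Pool.Agent.HLU Pool.Agent.VK

/-- Universal families of sets of shifts. -/
def UB (m K A B x : ℕ) (T : Fin m → Finset ℕ) : Prop :=
  ∀ w : ℕ → ℂ, (∀ n ∈ Icc 1 x, ‖w n‖ ≤ Real.log x ^ K) → ∀ c : ℕ, c ≤ x →
    ∃ E ⊆ Fintype.piFinset T, (E.card : ℝ) ≤ (∏ i, ((T i).card : ℝ)) / Real.log x ^ A ∧
      ∀ t ∈ Fintype.piFinset T, t ∉ E →
        (∀ y : ℕ, y ≤ x →
          ‖∑ n ∈ Icc 1 y, w n * ((∏ i, G0 (n + t i) - ∏ i, G1 (zA B x) (n + t i) : ℝ) : ℂ)‖ ≤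
            x / Real.log x ^ A) ∧
        (Function.Injective (Fin.cons c t : Fin (m + 1) → ℕ) → ∀ y : ℕ, y ≤ x →
          |(((Icc 1 y).filter
              (fun n : ℕ => ∀ i, (n + (Fin.cons c t : Fin (m + 1) → ℕ) i).Prime)).card : ℝ) -
            SI (Fin.cons c t : Fin (m + 1) → ℕ) *
              ∑ n ∈ Icc 2 y, hl univ (Fin.cons c t : Fin (m + 1) → ℕ) n| ≤ x / Real.log x ^ A)

theorem univ_ms (m K A : ℕ) : ∃ K' B A0 : ℕ, ∀ A' : ℕ, A0 ≤ A' → ∀ᶠ x : ℕ in atTop,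
    ∀ T : Fin m → Finset ℕ, (∀ i, MSP A' K' B x (T i)) → UB m K A A' x T := by
  classical
  obtain ⟨K1, B1, h1⟩ := weights_prime_ms m K (A + 1)
  obtain ⟨K2, B2, A0, h2⟩ := hl_ms m (A + 1)
  refine ⟨max K1 K2, max B1 B2, A0, fun A' hA' => ?_⟩
  filter_upwards [h1 A', h2 A' hA', ev_log 2] with x h1 h2 hL T hT w hw c hc
  have hL1 : 1 ≤ Real.log x := by linarith
  have hL0 : 0 < Real.log x := by linarith
  obtain ⟨E1, a1, a2, a3⟩ := h1 T (fun i => (hT i).mono (le_max_left _ _) (le_max_left _ _) hL1) univ w hw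
  obtain ⟨E2, b1, b2, b3⟩ := h2 T (fun i => (hT i).mono (le_max_right _ _) (le_max_right _ _) hL1) c hc
  have hP0 : 0 ≤ ∏ i, ((T i).card : ℝ) := Finset.prod_nonneg fun _ _ => Nat.cast_nonneg _
  have hx0 : (0 : ℝ) ≤ x := Nat.cast_nonneg x
  have hle : ∀ M : ℝ, 0 ≤ M → M / Real.log x ^ (A + 1) ≤ M / Real.log x ^ A := fun M hM =>
    div_le_div_of_nonneg_left hM (by positivity) (pow_le_pow_right₀ hL1 (by omega))
  refine ⟨E1 ∪ E2, Finset.union_subset a1 b1, ?_, fun t ht htE => ?_⟩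
  · have h3 : ((E1 ∪ E2).card : ℝ) ≤ E1.card + E2.card := by exact_mod_cast Finset.card_union_le _ _
    refine h3.trans ((add_le_add a2 b2).trans ?_)
    rw [← two_mul, pow_succ, ← mul_div_assoc, div_le_div_iff₀ (by positivity) (by positivity)]
    have h7 : 0 ≤ (∏ i, ((T i).card : ℝ)) * Real.log x ^ A := by positivity
    nlinarith only [h7, hL]
  · rw [Finset.mem_union, not_or] at htE
    exact ⟨fun y hy => (a3 t ht htE.1 y hy).trans (hle _ hx0),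
      fun hinj y hy => (b3 t ht htE.2 hinj y hy).trans (hle _ hx0)⟩

/-- The spectral hypothesis at scale `H`. -/
def SpB (F : ℕ → ℕ) (b0 H : ℕ) (T : Finset ℕ) : Prop :=
  ∀ b ≤ b0, ∀ Θ : Finset ℝ, Sep H Θ →
    (∀ θ ∈ Θ, (T.card : ℝ) ≤ Real.log H ^ b * ‖WW T θ‖) → (Θ.card : ℝ) ≤ Real.log H ^ F b

lemma SpB.mono {F : ℕ → ℕ} {b0 b1 H : ℕ} {T : Finset ℕ} (h : SpB F b1 H T) (hb : b0 ≤ b1) :
    SpB F b0 H T := fun b hb' => h b (hb'.trans hb)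

lemma spb_spt (F : ℕ → ℕ) (b0 : ℕ) : ∃ H0 : ℕ, ∀ H : ℕ, H0 ≤ H → ∀ x : ℕ, H ≤ x → x ≤ H ^ 6 →
    ∀ T : Finset ℕ, SpB F (b0 + 1) H T → SpT (fun b => F (b + 1)) b0 x H T := by
  obtain ⟨H0, hH0⟩ := eventually_atTop.mp (ev_log ((6 : ℝ) ^ b0))
  refine ⟨max H0 3, fun H hH x hHx hxH T hT b hb Θ hΘ h => ?_⟩
  have hH3 : 3 ≤ H := le_trans (le_max_right _ _) hH
  have hlog : (6 : ℝ) ^ b0 ≤ Real.log H := hH0 H (le_trans (le_max_left _ _) hH)
  have hHpos : (0 : ℝ) < H := by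
    have : (3 : ℝ) ≤ H := by exact_mod_cast hH3
    linarith
  have hlog1 : 1 ≤ Real.log H := by
    rw [Real.le_log_iff_exp_le hHpos]
    have h3 : (3 : ℝ) ≤ H := by exact_mod_cast hH3
    linarith only [h3, Real.exp_one_lt_d9]
  have hxpos : (0 : ℝ) < x := by
    have : (H : ℝ) ≤ x := by exact_mod_cast hHx
    linarith only [hHpos, this]
  have hl1 : Real.log H ≤ Real.log x := Real.log_le_log hHpos (by exact_mod_cast hHx)
  have hl2 : Real.log x ≤ 6 * Real.log H := by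
    have h1 : Real.log x ≤ Real.log ((H : ℝ) ^ 6) := Real.log_le_log hxpos (by exact_mod_cast hxH)
    rwa [Real.log_pow] at h1
  have hpow : Real.log x ^ b ≤ Real.log H ^ (b + 1) := by
    calc Real.log x ^ b ≤ (6 * Real.log H) ^ b := pow_le_pow_left₀ (by linarith only [hlog1, hl1]) hl2 b
      _ = 6 ^ b * Real.log H ^ b := by rw [mul_pow]
      _ ≤ 6 ^ b0 * Real.log H ^ b := by
          refine mul_le_mul_of_nonneg_right ?_ (by positivity)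
          exact pow_le_pow_right₀ (by norm_num) hb
      _ ≤ Real.log H * Real.log H ^ b := mul_le_mul_of_nonneg_right hlog (by positivity)
      _ = Real.log H ^ (b + 1) := by rw [pow_succ]; ring
  refine (hT (b + 1) (by omega) Θ hΘ fun θ hθ => ?_).trans ?_
  · exact (h θ hθ).trans (mul_le_mul_of_nonneg_right hpow (norm_nonneg _))
  · exact pow_le_pow_left₀ (by linarith only [hlog1]) hl1 _

/-- `SpB` in the range of scales `x ^ κ ≤ H ≤ x` implies `SpT`. -/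
lemma spb_ev (κ0 κ : ℝ) (h6 : 1 / 6 ≤ κ0) (hκ : κ0 < κ) (F : ℕ → ℕ) (b0 : ℕ) : ∀ᶠ x : ℕ in atTop, ∀ H : ℕ,
    (x : ℝ) ^ κ ≤ H → H ≤ x → 1 ≤ H ∧ ∀ T : Finset ℕ, SpB F (b0 + 1) H T → SpT (fun b => F (b + 1)) b0 x H T := by
  obtain ⟨H0, hH0⟩ := spb_spt F b0
  obtain ⟨x1, hx1⟩ := large_of_rpow (max H0 1)
  filter_upwards [eventually_ge_atTop x1, eventually_ge_atTop 1] with x hxx1 hx0 H hH1 hH2
  have hsq : x ≤ H ^ 6 := le_six_of_rpow (h6.trans hκ.le) hx0 hH1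
  have hH : max H0 1 ≤ H := hx1 x H hxx1 hsq
  exact ⟨le_trans (le_max_right _ _) hH, fun T hT => hH0 H (le_trans (le_max_left _ _) hH) x hH2 hsq T hT⟩

/-- Sets with a sparse spectrum have the mean square property. -/
theorem msp_ex (κ0 κ : ℝ) (hW : WNE κ0) (hκ : κ0 < κ) (K' B' A0 : ℕ) (F : ℕ → ℕ) :
    ∃ b0 A : ℕ, A0 ≤ A ∧ ∀ᶠ x : ℕ in atTop, ∀ H : ℕ, 1 ≤ H → (x : ℝ) ^ κ ≤ H → H ≤ x → ∀ T ⊆ range (x + 1),
      SpT F b0 x H T → MSP A K' B' x T := by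
  obtain ⟨b0, B, h1⟩ := msp_spec K' B' F
  obtain ⟨A, hA, h2⟩ := hW κ hκ A0 B
  refine ⟨b0, A, hA, ?_⟩
  filter_upwards [h1 A, h2] with x h1 h2 H hH0 hH1 hH2 T hT hsp
  exact h1 H hH0 hH2 (h2 H hH1 hH2) T hT hsp

/-- Part (a). -/
theorem fin_a (κ0 κ : ℝ) (h6 : 1 / 6 ≤ κ0) (hW : WNE κ0) (hκ : κ0 < κ) (m K A : ℕ) (F : ℕ → ℕ) :
    ∃ b0 B : ℕ, ∀ᶠ x : ℕ in atTop, ∀ H : Fin m → ℕ, (∀ i, (x : ℝ) ^ κ ≤ H i ∧ H i ≤ x) →
    ∀ T : Fin m → Finset ℕ, (∀ i, T i ⊆ range (x + 1)) → (∀ i, SpB F b0 (H i) (T i)) →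
    UB m K A B x T := by
  obtain ⟨K', B', A0, h1⟩ := univ_ms m K A
  obtain ⟨b0, B, hB, h2⟩ := msp_ex κ0 κ hW hκ K' B' A0 (fun b => F (b + 1))
  refine ⟨b0 + 1, B, ?_⟩
  filter_upwards [h1 B hB, h2, spb_ev κ0 κ h6 hκ F b0] with x h1 h2 h3 H hH T hT hsp
  refine h1 T fun i => ?_
  obtain ⟨h4, h5⟩ := h3 (H i) (hH i).1 (hH i).2
  exact h2 (H i) h4 (hH i).1 (hH i).2 (T i) (hT i) (h5 (T i) (hsp i))

lemma SpT.tr' {F : ℕ → ℕ} {b0 x H : ℕ} {T : Finset ℕ} (h : SpT F b0 x H T) (b : ℕ) :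
    SpT F b0 x H (VN.tr T b) := h.tr b

/-- Part (c): random subsets. -/
theorem fin_c (κ0 κ : ℝ) (h6 : 1 / 6 ≤ κ0) (hW : WNE κ0) (hκ : κ0 < κ) (m K A K2 : ℕ) (F : ℕ → ℕ) :
    ∃ b0 B C : ℕ, ∀ᶠ x : ℕ in atTop, ∀ (H D : Fin m → ℕ) (T : Fin m → Finset ℕ),
    (∀ i, (x : ℝ) ^ κ ≤ H i ∧ H i ≤ x ∧ Real.log x ^ C ≤ D i ∧ (D i : ℝ) ≤ Real.log x ^ K2) →
    (∀ i, T i ⊆ range (H i + 1) ∧ SpB F b0 (H i) (T i)) →
    ∃ X : Fin m → Finset (Finset ℕ), (∀ i, X i ⊆ (T i).powersetCard (D i) ∧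
      ((X i).card : ℝ) ≤ ((T i).powersetCard (D i)).card / Real.log x ^ A) ∧
      ∀ S : Fin m → Finset ℕ, (∀ i, S i ∈ (T i).powersetCard (D i) ∧ S i ∉ X i) →
      ∀ β : Fin m → ℕ, (∀ i, β i + H i ≤ x) →
        UB m K A B x (fun i => tr (S i) (β i)) := by
  obtain ⟨K', B', A0, h1⟩ := univ_ms m K A
  obtain ⟨K'', B'', C, h2⟩ := univ_msp K' B' K2 A
  obtain ⟨b0, B, hB, h3⟩ := msp_ex κ0 κ hW hκ K'' B'' A0 (fun b => F (b + 1))
  refine ⟨b0 + 1, B, C, ?_⟩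
  filter_upwards [h1 B hB, h2 B, h3, spb_ev κ0 κ h6 hκ F b0] with x h1 h2 h3 h4 H D T hH hT
  have key : ∀ i, ∃ X ⊆ (T i).powersetCard (D i),
      (X.card : ℝ) ≤ ((T i).powersetCard (D i)).card / Real.log x ^ A ∧
      ∀ S ∈ (T i).powersetCard (D i), S ∉ X → ∀ β : ℕ, β + H i ≤ x → MSP B K' B' x (tr S β) := by
    intro i
    obtain ⟨a1, a2, a3, a4⟩ := hH i
    obtain ⟨a5, a6⟩ := hT i
    obtain ⟨a7, a8⟩ := h4 (H i) a1 a2
    refine h2 (H i) a2 (T i) a5 ?_ ?_ (D i) a3 a4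
    · refine h3 (H i) a7 a1 a2 (T i) (a5.trans (Finset.range_mono (by omega))) (a8 (T i) a6)
    · refine h3 (H i) a7 a1 a2 _ (tr_sub_range a5 (by omega)) ((a8 (T i) a6).tr _)
  choose X hX1 hX2 hX3 using key
  refine ⟨X, fun i => ⟨hX1 i, hX2 i⟩, fun S hS β hβ => h1 _ fun i => ?_⟩
  exact hX3 i (S i) (hS i).1 (hS i).2 (β i) (hβ i)

/-- Part (d): multiples. -/
theorem fin_d (κ0 κ : ℝ) (h6 : 1 / 6 ≤ κ0) (hW : WNE κ0) (hκ : κ0 < κ) (m K A K2 : ℕ) (F : ℕ → ℕ) :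
    ∃ b0 B C : ℕ, ∀ᶠ x : ℕ in atTop, ∀ (H D : Fin m → ℕ) (T : Fin m → Finset ℕ),
    (∀ i, (x : ℝ) ^ κ ≤ H i ∧ D i * H i ≤ x ∧ (D i : ℝ) ≤ Real.log x ^ K2) →
    (∀ i, T i ⊆ Icc 1 (H i) ∧ SpB F b0 (H i) (T i)) →
    ∃ E : Fin m → Finset ℕ, (∀ i, E i ⊆ T i ∧ ((E i).card : ℝ) ≤ (T i).card / Real.log x ^ A) ∧
      ∀ t : Fin m → ℕ, (∀ i, t i ∈ T i ∧ t i ∉ E i) →
      ∀ Q : Fin m → Finset ℕ, (∀ i, Q i ⊆ range (D i + 1) ∧ Real.log x ^ C ≤ (Q i).card) →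
      ∀ β : Fin m → ℕ, (∀ i, β i + D i * H i ≤ x) →
        UB m K A B x (fun i => tr (dil (Q i) (t i)) (β i)) := by
  obtain ⟨K', B', A0, h1⟩ := univ_ms m K A
  obtain ⟨K'', B'', C, h2⟩ := univ_dil K' B' K2 A
  obtain ⟨b0, B, hB, h3⟩ := msp_ex κ0 κ hW hκ K'' B'' A0 (fun b => F (b + 1) + K2 + 1)
  refine ⟨b0 + 1, B, C + 1, ?_⟩
  filter_upwards [h1 B hB, h2 B, h3, spb_ev κ0 κ h6 hκ F b0, spt_dil (fun b => F (b + 1)) b0 K2, ev_log 2]
    with x h1 h2 h3 h4 h5 hL H D T hH hT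
  have hL1 : 1 ≤ Real.log x := by linarith
  have key : ∀ i, ∃ E ⊆ T i, (E.card : ℝ) ≤ ((T i).card : ℝ) / Real.log x ^ A ∧ ∀ t ∈ T i, t ∉ E →
      ∀ Q ⊆ range (D i + 1), Real.log x ^ (C + 1) ≤ Q.card → ∀ β : ℕ, β + D i * H i ≤ x →
        MSP B K' B' x (tr (dil Q t) β) := by
    intro i
    obtain ⟨a1, a3, a4⟩ := hH i
    obtain ⟨a5, a6⟩ := hT i
    rcases Nat.eq_zero_or_pos (D i) with hD | a2
    · refine ⟨∅, Finset.empty_subset _, ?_, fun t _ _ Q hQ hQc => ?_⟩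
      · rw [Finset.card_empty, Nat.cast_zero]
        positivity
      · exfalso
        have h6 := Finset.card_le_card hQ
        rw [hD, Finset.card_range] at h6
        have h7 : (Q.card : ℝ) ≤ 1 := by exact_mod_cast h6
        have h8 : Real.log x ≤ Real.log x ^ (C + 1) := le_self_pow₀ hL1 (by omega)
        linarith
    have a0 : H i ≤ x := (Nat.le_mul_of_pos_left (H i) a2).trans a3
    obtain ⟨a7, a8⟩ := h4 (H i) a1 a0
    have hM : ∀ d ∈ Icc 1 (D i), MSP B K'' B'' x (dil (T i) d) ∧ MSP B K'' B'' x (tr (dil (T i) d) (x - d * H i)) := by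
      intro d hd
      obtain ⟨hd1, hd2⟩ := Finset.mem_Icc.mp hd
      have hdD : (d : ℝ) ≤ Real.log x ^ K2 := le_trans (by exact_mod_cast hd2) a4
      have hsp := h5 (H i) a7 (T i) (a8 (T i) a6) d hd1 hdD
      have hdH : d * H i ≤ x := (Nat.mul_le_mul_right _ hd2).trans a3
      have hr : dil (T i) d ⊆ range (d * H i + 1) := by
        intro u hu
        unfold dil at hu
        obtain ⟨t, ht, rfl⟩ := Finset.mem_image.mp hu
        have := (Finset.mem_Icc.mp (a5 ht)).2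
        rw [Finset.mem_range]
        exact Nat.lt_succ_of_le (Nat.mul_le_mul_left d this)
      refine ⟨?_, ?_⟩
      · exact h3 (H i) a7 a1 a0 _ (hr.trans (Finset.range_mono (by omega))) hsp
      · exact h3 (H i) a7 a1 a0 _ (tr_sub_range hr (by omega)) (hsp.tr _)
    obtain ⟨E, hE1, hE2, hE3⟩ := h2 (H i) (D i) a3 a4 (T i) a5 hM
    exact ⟨E, hE1, hE2, fun t ht htE Q hQ hQc => hE3 t ht htE Q hQ
        ((pow_le_pow_right₀ hL1 (Nat.le_succ C)).trans hQc)⟩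
  choose E hE1 hE2 hE3 using key
  refine ⟨E, fun i => ⟨hE1 i, hE2 i⟩, fun t ht Q hQ β hβ => h1 _ fun i => ?_⟩
  exact hE3 i (t i) (ht i).1 (ht i).2 (Q i) (hQ i).1 (hQ i).2 (β i) (hβ i)

/-- Part (b): Hardy-Littlewood for all `x` in a long range at once. -/
theorem fin_b1 (κ0 κ : ℝ) (h6 : 1 / 6 ≤ κ0) (hW : WNE κ0) (hκ : κ0 < κ) (m A : ℕ) (hm : 1 ≤ m) (F : ℕ → ℕ) :
    ∃ b0 x0 : ℕ, ∀ X0 : ℕ, x0 ≤ X0 →
    ∀ H : Fin m → ℕ, (∀ i, H i ≤ X0) →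
    ∀ T : Fin m → Finset ℕ, (∀ i, T i ⊆ range (X0 + 1)) → (∀ i, SpB F b0 (H i) (T i)) → ∀ c : ℕ, c ≤ X0 →
    ∃ E ⊆ Fintype.piFinset T, (E.card : ℝ) ≤ (∏ i, ((T i).card : ℝ)) / Real.log X0 ^ A ∧
      ∀ t ∈ Fintype.piFinset T, t ∉ E → Function.Injective (Fin.cons c t : Fin (m + 1) → ℕ) →
        ∀ x : ℕ, X0 ≤ x → (∀ i, (x : ℝ) ^ κ ≤ H i) → ∀ y : ℕ, y ≤ x →
        |(((Icc 1 y).filter
            (fun n : ℕ => ∀ i, (n + (Fin.cons c t : Fin (m + 1) → ℕ) i).Prime)).card : ℝ) -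
          SI (Fin.cons c t : Fin (m + 1) → ℕ) *
            ∑ n ∈ Icc 2 y, hl univ (Fin.cons c t : Fin (m + 1) → ℕ) n| ≤ x / Real.log x ^ A := by
  classical
  obtain ⟨κ1, hκ1, hκ2⟩ := exists_between hκ
  obtain ⟨b0, B, h1⟩ := fin_a κ0 κ1 h6 hW hκ1 m 0 (A + 2) F
  obtain ⟨x1, hx1⟩ := eventually_atTop.mp h1
  obtain ⟨x2, hx2⟩ := eventually_atTop.mp (ev_log 10)
  -- `(4 x) ^ κ1 ≤ x ^ κ` for large `x`
  have hlim : ∀ᶠ x : ℕ in atTop, (4 : ℝ) ^ κ1 ≤ (x : ℝ) ^ (κ - κ1) := by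
    have := (tendsto_rpow_atTop (show (0 : ℝ) < κ - κ1 by linarith)).comp
      (tendsto_natCast_atTop_atTop (R := ℝ))
    exact this.eventually_ge_atTop _
  obtain ⟨x3, hx3⟩ := eventually_atTop.mp hlim
  refine ⟨b0, max (max x1 x2) (max x3 3), fun X0 hX0 H hH T hTr hT c hc => ?_⟩
  have hX1 : x1 ≤ X0 := le_trans (le_trans (le_max_left _ _) (le_max_left _ _)) hX0
  have hX2 : x2 ≤ X0 := le_trans (le_trans (le_max_right _ _) (le_max_left _ _)) hX0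
  have hX3 : x3 ≤ X0 := le_trans (le_trans (le_max_left _ _) (le_max_right _ _)) hX0
  have hX4 : 3 ≤ X0 := le_trans (le_trans (le_max_right _ _) (le_max_right _ _)) hX0
  have hX0R : (3 : ℝ) ≤ X0 := by exact_mod_cast hX4
  set L : ℝ := Real.log X0 with hL
  have hL8 : 10 ≤ L := hx2 X0 hX2
  have hL0 : 0 < L := by linarith only [hL8]
  have hP0 : 0 ≤ ∏ i, ((T i).card : ℝ) := Finset.prod_nonneg fun _ _ => Nat.cast_nonneg _
  -- the scales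
  have key : ∀ k : ℕ, ∃ E ⊆ Fintype.piFinset T,
      (E.card : ℝ) ≤ (∏ i, ((T i).card : ℝ)) / L ^ (A + 2) ∧
      ((∀ i, ((2 ^ k * X0 : ℕ) : ℝ) ^ κ1 ≤ H i) →
      ∀ t ∈ Fintype.piFinset T, t ∉ E → Function.Injective (Fin.cons c t : Fin (m + 1) → ℕ) →
        ∀ y : ℕ, y ≤ 2 ^ k * X0 →
        |(((Icc 1 y).filter
            (fun n : ℕ => ∀ i, (n + (Fin.cons c t : Fin (m + 1) → ℕ) i).Prime)).card : ℝ) -
          SI (Fin.cons c t : Fin (m + 1) → ℕ) *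
            ∑ n ∈ Icc 2 y, hl univ (Fin.cons c t : Fin (m + 1) → ℕ) n| ≤
          ((2 ^ k * X0 : ℕ) : ℝ) / Real.log ((2 ^ k * X0 : ℕ) : ℝ) ^ (A + 2)) := by
    intro k
    have hXk : X0 ≤ 2 ^ k * X0 := Nat.le_mul_of_pos_left _ (by positivity)
    by_cases hcond : ∀ i, ((2 ^ k * X0 : ℕ) : ℝ) ^ κ1 ≤ H i
    · obtain ⟨E, hE1, hE2, hE3⟩ := hx1 (2 ^ k * X0) (hX1.trans hXk) H
        (fun i => ⟨hcond i, (hH i).trans hXk⟩) T
        (fun i => (hTr i).trans (Finset.range_mono (Nat.add_le_add_right hXk 1))) hT (fun _ => 0)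
        (fun n _ => by rw [norm_zero]; positivity) c (hc.trans hXk)
      refine ⟨E, hE1, hE2.trans ?_, fun _ t ht htE => (hE3 t ht htE).2⟩
      refine div_le_div_of_nonneg_left hP0 (by (clear * - hL8; positivity)) (pow_le_pow_left₀ hL0.le ?_ _)
      exact Real.log_le_log (by linarith only [hX0R]) (by exact_mod_cast hXk)
    · refine ⟨∅, Finset.empty_subset _, ?_, fun h => absurd h hcond⟩
      rw [Finset.card_empty, Nat.cast_zero]
      (clear * - hL8; positivity)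
  choose E hE1 hE2 hE3 using key
  set M : ℕ := ⌊8 * L⌋₊ + 1 with hM
  refine ⟨(range (M + 1)).biUnion E, ?_, ?_, ?_⟩
  · intro t ht
    obtain ⟨k, _, hk⟩ := Finset.mem_biUnion.mp ht
    exact hE1 k hk
  · have hc1 : (((range (M + 1)).biUnion E).card : ℝ) ≤ ∑ k ∈ range (M + 1), ((E k).card : ℝ) := by
      exact_mod_cast Finset.card_biUnion_le
    refine hc1.trans ((Finset.sum_le_sum fun k _ => hE2 k).trans ?_)
    rw [Finset.sum_const, Finset.card_range, nsmul_eq_mul]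
    have hM2 : ((M + 1 : ℕ) : ℝ) ≤ L ^ 2 := by
      rw [hM]
      push_cast
      have := Nat.floor_le (show 0 ≤ 8 * L by linarith only [hL8])
      nlinarith only [hL8, this]
    refine (mul_le_mul_of_nonneg_right hM2 (div_nonneg hP0 (pow_nonneg hL0.le _))).trans ?_
    exact (sq_mul_div _ L hL0 A).le
  · intro t ht htE hinj x hx hxH y hy
    obtain ⟨k, hk1, hk2⟩ := scale_exists X0 x (by omega) hx
    have hx1' : 1 ≤ x := by omega
    have hxR : (3 : ℝ) ≤ x := by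
      have : (X0 : ℝ) ≤ x := by exact_mod_cast hx
      linarith only [hX0R, this]
    have hx0R : (0 : ℝ) < x := by linarith only [hxR]
    set X : ℕ := 2 ^ k * X0 with hX
    have hXR : (x : ℝ) ≤ X := by exact_mod_cast hk1
    have hXR2 : (X : ℝ) ≤ 2 * x := by exact_mod_cast hk2
    have hcond : ∀ i, (X : ℝ) ^ κ1 ≤ H i := by
      intro i
      refine le_trans ?_ (hxH i)
      have e1 : (X : ℝ) ^ κ1 ≤ (4 * x : ℝ) ^ κ1 :=
        Real.rpow_le_rpow (Nat.cast_nonneg _) (by linarith only [hxR, hXR2]) (by linarith only [h6, hκ1])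
      refine e1.trans ?_
      rw [Real.mul_rpow (by norm_num) hx0R.le]
      have e2 : (4 : ℝ) ^ κ1 ≤ (x : ℝ) ^ (κ - κ1) := hx3 x (hX3.trans hx)
      calc (4 : ℝ) ^ κ1 * (x : ℝ) ^ κ1
          ≤ (x : ℝ) ^ (κ - κ1) * (x : ℝ) ^ κ1 :=
            mul_le_mul_of_nonneg_right e2 (by (clear * - hx1'; positivity))
        _ = (x : ℝ) ^ κ := by
            rw [← Real.rpow_add hx0R]
            congr 1
            ring
    have hkM : k ∈ range (M + 1) := by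
      have i0 : Fin m := ⟨0, hm⟩
      have h1 : x ≤ H i0 ^ 6 := le_six_of_rpow (h6.trans hκ.le) hx1' (hxH i0)
      have h2 : x ≤ X0 ^ 6 := h1.trans (Nat.pow_le_pow_left (hH i0) 6)
      have h5 := scale_bound k X0 x hX4 h2 hk2
      rw [Finset.mem_range]
      exact Nat.lt_succ_of_le h5
    have htk : t ∉ E k := fun h => htE (Finset.mem_biUnion.mpr ⟨k, hkM, h⟩)
    have h1 := hE3 k hcond t ht htk hinj y (hy.trans hk1)
    refine h1.trans ?_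
    have hlx : 10 ≤ Real.log x := hx2 x (hX2.trans hx)
    have hlX : Real.log x ≤ Real.log X := Real.log_le_log hx0R hXR
    calc (X : ℝ) / Real.log X ^ (A + 2) ≤ (2 * x) / Real.log x ^ (A + 2) := by
          refine div_le_div₀ (by (clear * - hx1'; positivity)) hXR2 (by (clear * - hlx; positivity)) ?_
          exact pow_le_pow_left₀ (by linarith only [hlx]) hlX _
      _ ≤ x / Real.log x ^ A := by
          rw [div_le_div_iff₀ (by (clear * - hlx; positivity)) (by (clear * - hlx; positivity)), pow_add]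
          have : 2 ≤ Real.log x ^ 2 := by nlinarith only [hlx]
          have h0 : 0 ≤ (x : ℝ) * Real.log x ^ A := by (clear * - hx1' hlx; positivity)
          nlinarith only [this, h0]

/-- Part (b), without shifts. -/
theorem fin_b0 (κ0 κ : ℝ) (h6 : 1 / 6 ≤ κ0) (hW : WNE κ0) (hκ : κ0 < κ) (A : ℕ) (F : ℕ → ℕ) :
    ∃ x0 : ℕ, ∀ x : ℕ, x0 ≤ x → ∀ t : Fin 0 → ℕ, ∀ c : ℕ, c ≤ x → ∀ y : ℕ, y ≤ x →
        |(((Icc 1 y).filter
            (fun n : ℕ => ∀ i, (n + (Fin.cons c t : Fin (0 + 1) → ℕ) i).Prime)).card : ℝ) -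
          SI (Fin.cons c t : Fin (0 + 1) → ℕ) *
            ∑ n ∈ Icc 2 y, hl univ (Fin.cons c t : Fin (0 + 1) → ℕ) n| ≤ x / Real.log x ^ A := by
  obtain ⟨b0, B, h1⟩ := fin_a κ0 κ h6 hW hκ 0 0 (A + 1) F
  obtain ⟨x0, hx0⟩ := eventually_atTop.mp (h1.and (ev_log 2))
  refine ⟨x0, fun x hx t c hc y hy => ?_⟩
  obtain ⟨h2, hL⟩ := hx0 x hx
  have hL0 : 0 < Real.log x := by linarith
  have hL1 : 1 ≤ Real.log x := by linarith
  obtain ⟨E, e1, e2, e3⟩ := h2 (fun i => i.elim0) (fun i => i.elim0) (fun i => i.elim0) (fun i => i.elim0)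
    (fun i => i.elim0) (fun _ => 0) (fun n _ => by rw [norm_zero]; positivity) c hc
  have hE : E = ∅ := by
    rw [← Finset.card_eq_zero]
    have h3 : (E.card : ℝ) < 1 := by
      refine lt_of_le_of_lt e2 ?_
      rw [Finset.univ_eq_empty, Finset.prod_empty, div_lt_one (by positivity)]
      exact lt_of_lt_of_le (by linarith) (le_self_pow₀ hL1 (by omega : A + 1 ≠ 0))
    have h4 : E.card < 1 := by exact_mod_cast h3
    omega
  have hinj : Function.Injective (Fin.cons c t : Fin (0 + 1) → ℕ) := fun a b _ => Fin.ext (by omega)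
  refine ((e3 t (Fintype.mem_piFinset.mpr fun i => i.elim0) (by rw [hE]; exact Finset.notMem_empty _)).2 hinj y hy).trans ?_
  exact div_le_div_of_nonneg_left (Nat.cast_nonneg _) (by positivity) (pow_le_pow_right₀ hL1 (by omega))

/-- Part (b): Hardy-Littlewood for all `x` in a long range at once. -/
theorem fin_b (κ0 κ : ℝ) (h6 : 1 / 6 ≤ κ0) (hW : WNE κ0) (hκ : κ0 < κ) (m A : ℕ) (F : ℕ → ℕ) :
    ∃ b0 x0 : ℕ, ∀ X0 : ℕ, x0 ≤ X0 →
    ∀ H : Fin m → ℕ, (∀ i, H i ≤ X0) →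
    ∀ T : Fin m → Finset ℕ, (∀ i, T i ⊆ range (X0 + 1)) → (∀ i, SpB F b0 (H i) (T i)) → ∀ c : ℕ, c ≤ X0 →
    ∃ E ⊆ Fintype.piFinset T, (E.card : ℝ) ≤ (∏ i, ((T i).card : ℝ)) / Real.log X0 ^ A ∧
      ∀ t ∈ Fintype.piFinset T, t ∉ E → Function.Injective (Fin.cons c t : Fin (m + 1) → ℕ) →
        ∀ x : ℕ, X0 ≤ x → (∀ i, (x : ℝ) ^ κ ≤ H i) → ∀ y : ℕ, y ≤ x →
        |(((Icc 1 y).filter
            (fun n : ℕ => ∀ i, (n + (Fin.cons c t : Fin (m + 1) → ℕ) i).Prime)).card : ℝ) -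
          SI (Fin.cons c t : Fin (m + 1) → ℕ) *
            ∑ n ∈ Icc 2 y, hl univ (Fin.cons c t : Fin (m + 1) → ℕ) n| ≤ x / Real.log x ^ A := by
  rcases m with _ | m
  · obtain ⟨x0, h⟩ := fin_b0 κ0 κ h6 hW hκ A F
    refine ⟨0, x0, fun X0 hX0 H _ T _ _ c hc => ⟨∅, Finset.empty_subset _, ?_, ?_⟩⟩
    · rw [Finset.card_empty, Nat.cast_zero]
      exact div_nonneg (Finset.prod_nonneg fun _ _ => Nat.cast_nonneg _)
        (pow_nonneg (Real.log_natCast_nonneg _) _)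
    · exact fun t _ _ _ x hx _ y hy => h x (hX0.trans hx) t c (hc.trans hx) y hy
  · exact fin_b1 κ0 κ h6 hW hκ (m + 1) A (by omega) F

end Pool.Agent.VN
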