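import Pool.Agent.Lib.VN.MspSpec
import Pool.Agent.Lib.HLS.SepDil

/-!
# The spectrum of the dilates `d T`, `d ≤ (log x)^K`

`dil T d = {d t : t ∈ T}`.
-/

set_option autoImplicit false

open Finset Filter

namespace Pool.Agent.VN

open Pool.Agent.HLT Pool.Agent.VK Pool.Agent.HLU

/-- The dilate `d T`. -/
def dil (T : Finset ℕ) (d : ℕ) : Finset ℕ := T.image (fun t => d * t)

lemma dil_eq (T : Finset ℕ) (d : ℕ) : dil T d = T.image (fun t => 0 + t * d) := by
  unfold dil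
  refine Finset.image_congr fun t _ => ?_
  simp only [zero_add, mul_comm]

theorem spt_dil (F : ℕ → ℕ) (b0 K : ℕ) : ∀ᶠ x : ℕ in atTop, ∀ H : ℕ, 1 ≤ H → ∀ T : Finset ℕ, SpT F b0 x H T →
    ∀ d : ℕ, 1 ≤ d → (d : ℝ) ≤ Real.log x ^ K → SpT (fun b => F b + K + 1) b0 x H (dil T d) := by
  filter_upwards [ev_log 2] with x hL H hH T hT d hd hdK b hb Θ hΘ hθ
  rw [dil_eq] at hθ
  have h1 := HLR.sep_dil H hH T 0 d hd (Real.log x ^ b) (Real.log x ^ F b) (fun Θ h1 h2 => hT b hb Θ h1 h2) Θ hΘ hθ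
  refine h1.trans ?_
  have h0 : 0 < Real.log x := by linarith
  calc 2 * (d : ℝ) * Real.log x ^ F b ≤ Real.log x * Real.log x ^ K * Real.log x ^ F b := by
        refine mul_le_mul_of_nonneg_right ?_ (by positivity)
        exact mul_le_mul hL hdK (Nat.cast_nonneg _) h0.le
    _ = Real.log x ^ (F b + K + 1) := by ring

end Pool.Agent.VN
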