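import Mathlib

/-!
# Module SubsetsR: the `D`-element subsets that contain a bad `r`-tuple

Generalization of `VN/Subsets.lean` (finished, the case of pairs). With `N = |T|`: for an injective `f : Fin r → ℕ` with values in `T` the number of `S ∈ T.powersetCard D` which contain all `f i` is `C(N-r, D-r)` if
`r ≤ D` (bijection `S ↦ S \ univ.image f`) and `0` otherwise (so `X` is empty if `D < r` or `N < D`). For `r ≤ D ≤ N`: `C(N,D) * D.descFactorial r = C(N-r, D-r) * N.descFactorial r` (induction on `r` with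
`Nat.succ_mul_choose_eq`, or `Nat.choose_mul`) and `D.descFactorial r * N^r ≤ D^r * N.descFactorial r` (factor by factor: `(D - i) N ≤ D (N - i)` as `i D ≤ i N`). So `C(N-r,D-r) * N^r ≤ D^r * C(N,D)`. Sum over `f ∈ P`.
-/

set_option autoImplicit false

open Finset

namespace Pool.Agent.VN

namespace SubsetsRAux

lemma step {N D r : ℕ} (h1 : r + 1 ≤ D) (h2 : D ≤ N) :
    (N - (r + 1)).choose (D - (r + 1)) * N ≤ D * (N - r).choose (D - r) := by
  obtain ⟨d, rfl⟩ : ∃ d, D = d + r + 1 := ⟨D - (r + 1), by omega⟩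
  obtain ⟨e, rfl⟩ : ∃ e, N = e + (d + r + 1) := ⟨N - (d + r + 1), by omega⟩
  have e1 : e + (d + r + 1) - (r + 1) = e + d := by omega
  have e2 : d + r + 1 - (r + 1) = d := by omega
  have e3 : e + (d + r + 1) - r = e + d + 1 := by omega
  have e4 : d + r + 1 - r = d + 1 := by omega
  rw [e1, e2, e3, e4]
  have h3 := Nat.add_one_mul_choose_eq (e + d) d
  have h4 : (d + 1) * (e + (d + r + 1)) ≤ (d + r + 1) * (e + d + 1) := by
    nlinarith [Nat.zero_le (r * e)]
  have h5 : 0 < e + d + 1 := Nat.succ_pos (e + d)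
  refine Nat.le_of_mul_le_mul_left ?_ h5
  calc (e + d + 1) * ((e + d).choose d * (e + (d + r + 1)))
      = ((e + d + 1) * (e + d).choose d) * (e + (d + r + 1)) := by ring
    _ = (e + d + 1).choose (d + 1) * ((d + 1) * (e + (d + r + 1))) := by rw [h3]; ring
    _ ≤ (e + d + 1).choose (d + 1) * ((d + r + 1) * (e + d + 1)) := Nat.mul_le_mul_left _ h4
    _ = _ := by ring

lemma choose_pow {N D : ℕ} (h2 : D ≤ N) : ∀ r : ℕ, r ≤ D →
    (N - r).choose (D - r) * N ^ r ≤ D ^ r * N.choose D := by
  intro r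
  induction r with
  | zero => simp
  | succ r ih =>
    intro h1
    have h3 := ih (by omega)
    have h4 := step h1 h2
    calc (N - (r + 1)).choose (D - (r + 1)) * N ^ (r + 1)
        = ((N - (r + 1)).choose (D - (r + 1)) * N) * N ^ r := by ring
      _ ≤ (D * (N - r).choose (D - r)) * N ^ r := Nat.mul_le_mul_right _ h4
      _ = D * ((N - r).choose (D - r) * N ^ r) := by ring
      _ ≤ D * (D ^ r * N.choose D) := Nat.mul_le_mul_left _ h3
      _ = _ := by ring

lemma count {r : ℕ} {T : Finset ℕ} {D : ℕ} {f : Fin r → ℕ} (hf : Function.Injective f)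
    (hfT : ∀ i, f i ∈ T) :
    ((T.powersetCard D).filter (fun S => ∀ i, f i ∈ S)).card ≤ (T.card - r).choose (D - r) := by
  set A : Finset ℕ := univ.image f with hA
  have hAc : A.card = r := by
    rw [hA, card_image_of_injective _ hf, card_univ, Fintype.card_fin]
  have hAT : A ⊆ T := by
    intro x hx
    obtain ⟨i, _, rfl⟩ := mem_image.1 hx
    exact hfT i
  have h1 : (T \ A).card = T.card - r := by
    rw [card_sdiff_of_subset hAT, hAc]
  rw [← h1, ← card_powersetCard]
  refine card_le_card_of_injOn (fun S => S \ A) ?_ ?_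
  · intro S hS
    rw [mem_coe, mem_filter, mem_powersetCard] at hS
    obtain ⟨⟨h2, h3⟩, h4⟩ := hS
    have h5 : A ⊆ S := by
      intro x hx
      obtain ⟨i, _, rfl⟩ := mem_image.1 hx
      exact h4 i
    rw [mem_coe, mem_powersetCard]
    refine ⟨sdiff_subset_sdiff h2 (Subset.refl _), ?_⟩
    rw [card_sdiff_of_subset h5, hAc, h3]
  · intro S hS S' hS' h
    rw [mem_coe, mem_filter] at hS hS'
    have h5 : ∀ S : Finset ℕ, (∀ i, f i ∈ S) → A ⊆ S := by
      intro S hS x hx
      obtain ⟨i, _, rfl⟩ := mem_image.1 hx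
      exact hS i
    have h6 : S \ A ∪ A = S := sdiff_union_of_subset (h5 S hS.2)
    have h7 : S' \ A ∪ A = S' := sdiff_union_of_subset (h5 S' hS'.2)
    have h8 : S \ A = S' \ A := h
    rw [← h6, ← h7, h8]

end SubsetsRAux

open SubsetsRAux

theorem subsets_bad_r (r : ℕ) (T : Finset ℕ) (P : Finset (Fin r → ℕ)) (D : ℕ) (X : Finset (Finset ℕ))
    (hP : ∀ f ∈ P, Function.Injective f ∧ ∀ i, f i ∈ T)
    (hX : ∀ S ∈ X, S ∈ T.powersetCard D ∧ ∃ f ∈ P, ∀ i, f i ∈ S) :
    (X.card : ℝ) * (T.card : ℝ) ^ r ≤ (D : ℝ) ^ r * P.card * (T.powersetCard D).card := by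
  rcases X.eq_empty_or_nonempty with rfl | ⟨S0, hS0⟩
  · simp only [card_empty, Nat.cast_zero, zero_mul]
    positivity
  obtain ⟨h1, f0, hf0, hf0S⟩ := hX S0 hS0
  rw [mem_powersetCard] at h1
  have h2 : r ≤ D := by
    rw [← h1.2]
    calc r = (univ.image f0).card := by
          rw [card_image_of_injective _ (hP f0 hf0).1, card_univ, Fintype.card_fin]
      _ ≤ S0.card := by
          refine card_le_card fun x hx => ?_
          obtain ⟨i, _, rfl⟩ := mem_image.1 hx
          exact hf0S i
  have h3 : D ≤ T.card := by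
    rw [← h1.2]
    exact card_le_card h1.1
  have h4 : X ⊆ P.biUnion (fun f => (T.powersetCard D).filter (fun S => ∀ i, f i ∈ S)) := by
    intro S hS
    obtain ⟨h5, f, hf, hfS⟩ := hX S hS
    rw [mem_biUnion]
    exact ⟨f, hf, mem_filter.2 ⟨h5, hfS⟩⟩
  have h5 : X.card ≤ P.card * (T.card - r).choose (D - r) := by
    refine (card_le_card h4).trans (card_biUnion_le.trans ?_)
    refine (sum_le_sum (g := fun _ => (T.card - r).choose (D - r)) fun f hf =>
      count (hP f hf).1 (hP f hf).2).trans ?_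
    rw [sum_const, smul_eq_mul]
  have h6 := choose_pow h3 r h2
  rw [card_powersetCard]
  have h7 : X.card * T.card ^ r ≤ D ^ r * P.card * T.card.choose D := by
    calc X.card * T.card ^ r ≤ (P.card * (T.card - r).choose (D - r)) * T.card ^ r :=
          Nat.mul_le_mul_right _ h5
      _ = P.card * ((T.card - r).choose (D - r) * T.card ^ r) := by ring
      _ ≤ P.card * (D ^ r * T.card.choose D) := Nat.mul_le_mul_left _ h6
      _ = _ := by ring
  exact_mod_cast h7

end Pool.Agent.VN
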