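import Pool.Agent.Lib.VN.Final
import Pool.Agent.Lib.VN.SubsetsR

/-!
# Every tuple of almost every set of `D ≤ (log x)^K` shifts
-/

set_option autoImplicit false

open Finset Filter

namespace Pool.Agent.VN

open Pool.Agent.HLB Pool.Agent.HL Pool.Agent.HLT Pool.Agent.HLU Pool.Agent.VK

theorem fin_s (κ0 κ : ℝ) (h6 : 1 / 6 ≤ κ0) (hW : WNE κ0) (hκ : κ0 < κ) (m A K : ℕ) (F : ℕ → ℕ) :
    ∃ b0 x0 : ℕ, ∀ X0 : ℕ, x0 ≤ X0 → ∀ H : ℕ, H ≤ X0 → ∀ T ⊆ range (X0 + 1), SpB F b0 H T →
    ∀ D : ℕ, (D : ℝ) ≤ Real.log X0 ^ K →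
    ∃ X ⊆ T.powersetCard D, (X.card : ℝ) ≤ (T.powersetCard D).card / Real.log X0 ^ A ∧
      ∀ S ∈ T.powersetCard D, S ∉ X → ∀ f : Fin (m + 1) → ℕ, Function.Injective f → (∀ i, f i ∈ S) →
        ∀ x : ℕ, X0 ≤ x → (x : ℝ) ^ κ ≤ H → ∀ y : ℕ, y ≤ x →
        |(((Icc 1 y).filter (fun n : ℕ => ∀ i, (n + f i).Prime)).card : ℝ) -
          SI f * ∑ n ∈ Icc 2 y, hl univ f n| ≤ x / Real.log x ^ A := by
  classical
  obtain ⟨b0, x0, h⟩ := fin_b κ0 κ h6 hW hκ m (A + K * (m + 1)) F
  obtain ⟨x1, hx1⟩ := eventually_atTop.mp (ev_log 2)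
  refine ⟨b0, max x0 x1, fun X0 hX0 H hH T hT hsp D hD => ?_⟩
  have hL : 2 ≤ Real.log X0 := hx1 X0 (le_trans (le_max_right _ _) hX0)
  have hL0 : 0 < Real.log X0 := by linarith
  have hL1 : 1 ≤ Real.log X0 := by linarith
  have key : ∀ c : ℕ, ∃ E ⊆ Fintype.piFinset (fun _ : Fin m => T),
      (E.card : ℝ) ≤ (T.card : ℝ) ^ m / Real.log X0 ^ (A + K * (m + 1)) ∧ (c ∈ T →
      ∀ t ∈ Fintype.piFinset (fun _ : Fin m => T), t ∉ E → Function.Injective (Fin.cons c t : Fin (m + 1) → ℕ) →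
        ∀ x : ℕ, X0 ≤ x → (∀ _i : Fin m, (x : ℝ) ^ κ ≤ H) → ∀ y : ℕ, y ≤ x →
        |(((Icc 1 y).filter
            (fun n : ℕ => ∀ i, (n + (Fin.cons c t : Fin (m + 1) → ℕ) i).Prime)).card : ℝ) -
          SI (Fin.cons c t : Fin (m + 1) → ℕ) *
            ∑ n ∈ Icc 2 y, hl univ (Fin.cons c t : Fin (m + 1) → ℕ) n| ≤ x / Real.log x ^ (A + K * (m + 1))) := by
    intro c
    by_cases hc : c ∈ T
    · have hcX : c ≤ X0 := by
        have := Finset.mem_range.mp (hT hc)
        omega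
      obtain ⟨E, e1, e2, e3⟩ := h X0 (le_trans (le_max_left _ _) hX0) (fun _ => H) (fun _ => hH) (fun _ => T)
        (fun _ => hT) (fun _ => hsp) c hcX
      refine ⟨E, e1, ?_, fun _ => e3⟩
      rwa [Finset.prod_const, Finset.card_univ, Fintype.card_fin] at e2
    · refine ⟨∅, Finset.empty_subset _, ?_, fun h => absurd h hc⟩
      rw [Finset.card_empty, Nat.cast_zero]
      positivity
  choose E e1 e2 e3 using key
  set P : Finset (Fin (m + 1) → ℕ) := (Fintype.piFinset (fun _ : Fin (m + 1) => T)).filter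
    (fun f => Function.Injective f ∧ Fin.tail f ∈ E (f 0)) with hP
  set X : Finset (Finset ℕ) := (T.powersetCard D).filter (fun S => ∃ f ∈ P, ∀ i, f i ∈ S) with hX
  have hPc : (P.card : ℝ) ≤ (T.card : ℝ) ^ (m + 1) / Real.log X0 ^ (A + K * (m + 1)) := by
    have h1 : P.card ≤ (T.sigma fun c => E c).card := by
      refine Finset.card_le_card_of_injOn (fun f => (⟨f 0, Fin.tail f⟩ : Σ _ : ℕ, (Fin m → ℕ))) ?_ ?_
      · intro f hf
        have h2 := Finset.mem_filter.mp (Finset.mem_coe.mp hf)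
        rw [Finset.mem_coe, Finset.mem_sigma]
        exact ⟨Fintype.mem_piFinset.mp h2.1 0, h2.2.2⟩
      · intro f _ g _ hfg
        have h2 := Sigma.mk.inj_iff.mp hfg
        have h3 : Fin.tail f = Fin.tail g := eq_of_heq h2.2
        rw [← Fin.cons_self_tail f, ← Fin.cons_self_tail g, h2.1, h3]
    rw [Finset.card_sigma] at h1
    calc (P.card : ℝ) ≤ ∑ c ∈ T, ((E c).card : ℝ) := by exact_mod_cast h1
      _ ≤ ∑ _c ∈ T, (T.card : ℝ) ^ m / Real.log X0 ^ (A + K * (m + 1)) := Finset.sum_le_sum fun c _ => e2 c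
      _ = (T.card : ℝ) ^ (m + 1) / Real.log X0 ^ (A + K * (m + 1)) := by
          rw [Finset.sum_const, nsmul_eq_mul, pow_succ]
          ring
  have hX2 := subsets_bad_r (m + 1) T P D X
    (fun f hf => ⟨(Finset.mem_filter.mp hf).2.1, Fintype.mem_piFinset.mp (Finset.mem_filter.mp hf).1⟩)
    (fun S hS => ⟨(Finset.mem_filter.mp hS).1, (Finset.mem_filter.mp hS).2⟩)
  refine ⟨X, Finset.filter_subset _ _, ?_, fun S hS hSX f hf hfS x hx hxH y hy => ?_⟩
  · rcases Nat.eq_zero_or_pos T.card with h0 | h0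
    · have hX0' : X = ∅ := by
        rw [Finset.eq_empty_iff_forall_notMem]
        intro S hS
        obtain ⟨h1, f, _, hfS⟩ := Finset.mem_filter.mp hS
        have h2 := (Finset.mem_powersetCard.mp h1).1 (hfS 0)
        rw [Finset.card_eq_zero.mp h0] at h2
        exact absurd h2 (Finset.notMem_empty _)
      rw [hX0', Finset.card_empty, Nat.cast_zero]
      positivity
    · have hN : (0 : ℝ) < (T.card : ℝ) ^ (m + 1) := by positivity
      refine le_of_mul_le_mul_right (hX2.trans ?_) hN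
      have h1 : (D : ℝ) ^ (m + 1) ≤ Real.log X0 ^ (K * (m + 1)) := by
        rw [pow_mul]
        exact pow_le_pow_left₀ (Nat.cast_nonneg _) hD _
      calc (D : ℝ) ^ (m + 1) * P.card * (T.powersetCard D).card ≤
          Real.log X0 ^ (K * (m + 1)) * ((T.card : ℝ) ^ (m + 1) / Real.log X0 ^ (A + K * (m + 1))) *
            (T.powersetCard D).card := by
            refine mul_le_mul_of_nonneg_right ?_ (Nat.cast_nonneg _)
            exact mul_le_mul h1 hPc (Nat.cast_nonneg _) (by positivity)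
        _ = ((T.powersetCard D).card / Real.log X0 ^ A) * (T.card : ℝ) ^ (m + 1) := by
            have p1 : 0 < Real.log X0 ^ A := by positivity
            have p2 : 0 < Real.log X0 ^ (K * (m + 1)) := by positivity
            rw [pow_add (Real.log X0) A]
            generalize Real.log X0 ^ A = a at p1 ⊢
            generalize Real.log X0 ^ (K * (m + 1)) = b at p2 ⊢
            field_simp
  · have hfP : Fin.tail f ∉ E (f 0) := by
      intro h1
      apply hSX
      rw [hX, Finset.mem_filter]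
      refine ⟨hS, f, ?_, hfS⟩
      rw [hP, Finset.mem_filter]
      have hST := (Finset.mem_powersetCard.mp hS).1
      exact ⟨Fintype.mem_piFinset.mpr fun i => hST (hfS i), hf, h1⟩
    have hST := (Finset.mem_powersetCard.mp hS).1
    have h2 := e3 (f 0) (hST (hfS 0)) (Fin.tail f) (Fintype.mem_piFinset.mpr fun i => hST (hfS i.succ)) hfP
      (by rw [Fin.cons_self_tail]; exact hf) x hx (fun _ => hxH) y hy
    rw [Fin.cons_self_tail] at h2
    have hlx : 1 ≤ Real.log x := by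
      refine hL1.trans (Real.log_le_log ?_ (by exact_mod_cast hx))
      have h3 : (X0 : ℝ) ≠ 0 := by
        intro h3
        rw [h3, Real.log_zero] at hL0
        exact lt_irrefl _ hL0
      positivity
    refine h2.trans ?_
    exact div_le_div_of_nonneg_left (Nat.cast_nonneg _) (by positivity) (pow_le_pow_right₀ hlx (by omega))

end Pool.Agent.VN
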