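import Pool.Agent.Lib.HLU.Base
import Pool.Agent.Lib.VN.Defs

/-!
# Module Gram: a set all whose pairs are good has the mean square property

`L = log x`, `z = zA A x`, `g = ff z`, `|g n| ≤ L^2` for `n ≤ 2x` (as in `VK/WeightsShort.lean`: `lp_le_sq`, `nuz_le`, `DZ_inv_le A`). Take `C = 8 + 4K + 2B + 2`,
`B1 = 2K + B + 1`. Fix `β`, `h`; for `u ∈ S` let `a u = ∑_(n ≤ x) h n g(n + (u + β))` (`sum_tr`, `tr_card`, `tr_sub_range`). Then
`∑_(u ∈ S) |a u|^2 = ∑_u conj(a u) ∑_n h n g(n+u+β) = ∑_n h n ∑_u conj(a u) g(n+u+β) ≤ (∑_n |h n|^2)^(1/2) (∑_n |∑_u conj(a u) g(n+u+β)|^2)^(1/2)` and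
`∑_n |∑_u conj(a u) g(n+u+β)|^2 = ∑_(u,v) conj(a u) a v R(u,v)`, `R(u,v) = ∑_n g(n+u+β) g(n+v+β)`, `|R(u,u)| ≤ x L^4`, `|R(u,v)| ≤ x/L^B1` for `u ≠ v`, so it is
`≤ ∑_u |a u|^2 x L^4 + (∑_u |a u|)^2 x/L^B1 ≤ (∑ |a u|^2) (x L^4 + |S| x / L^B1)`. With `Q = ∑ |a u|^2`: `Q ≤ (x L^(2K))^(1/2) (Q (x L^4 + |S| x/L^B1))^(1/2)`, so
`Q ≤ x^2 L^(2K) (L^4 + |S|/L^B1) = |S| x^2 (L^(2K+4)/|S| + L^(2K-B1)) ≤ |S| x^2/L^B` as `|S| ≥ L^C ≥ 2 L^(2K+4+B)` and `L^(B1-2K) ≥ 2 L^B` (`L ≥ 2`).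
(This is simpler than the Hilbert-Schmidt bound and needs only `C = 2K + 5 + B`, `B1 = 2K + B + 1`.)
-/

set_option autoImplicit false

open Finset Filter

namespace Pool.Agent.VN

open Pool.Agent.HLT

/-- The duality inequality for almost orthogonal vectors. -/
private lemma gram_bound (I S : Finset ℕ) (h : ℕ → ℂ) (g : ℕ → ℕ → ℝ) (P D E : ℝ)
    (hD : 0 ≤ D) (hE : 0 ≤ E) (hP : ∑ n ∈ I, ‖h n‖ ^ 2 ≤ P)
    (hd : ∀ u ∈ S, |∑ n ∈ I, g u n * g u n| ≤ D)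
    (he : ∀ u ∈ S, ∀ v ∈ S, u ≠ v → |∑ n ∈ I, g u n * g v n| ≤ E) :
    ∑ u ∈ S, ‖∑ n ∈ I, h n * (g u n : ℂ)‖ ^ 2 ≤ P * (D + S.card * E) := by
  set a : ℕ → ℂ := fun u => ∑ n ∈ I, h n * (g u n : ℂ) with ha
  set Q : ℝ := ∑ u ∈ S, ‖a u‖ ^ 2 with hQ
  have hQ0 : 0 ≤ Q := Finset.sum_nonneg fun u _ => by positivity
  have hP0 : 0 ≤ P := le_trans (Finset.sum_nonneg fun n _ => by positivity) hP
  have e1 : (Q : ℂ) = ∑ n ∈ I, h n * ∑ u ∈ S, (starRingEnd ℂ) (a u) * (g u n : ℂ) := by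
    have e2 : (Q : ℂ) = ∑ u ∈ S, (starRingEnd ℂ) (a u) * a u := by
      rw [hQ]
      push_cast
      refine Finset.sum_congr rfl fun u _ => ?_
      rw [mul_comm, Complex.mul_conj, Complex.normSq_eq_norm_sq]
      push_cast
      rfl
    rw [e2]
    have e3 : ∀ u ∈ S, (starRingEnd ℂ) (a u) * a u =
        ∑ n ∈ I, h n * ((starRingEnd ℂ) (a u) * (g u n : ℂ)) := by
      intro u _
      conv_lhs => rw [show a u = ∑ n ∈ I, h n * (g u n : ℂ) from rfl]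
      rw [Finset.mul_sum]
      refine Finset.sum_congr rfl fun n _ => ?_
      ring
    rw [Finset.sum_congr rfl e3, Finset.sum_comm]
    refine Finset.sum_congr rfl fun n _ => ?_
    rw [Finset.mul_sum]
  have e4 : Q ≤ ∑ n ∈ I, ‖h n‖ * ‖∑ u ∈ S, (starRingEnd ℂ) (a u) * (g u n : ℂ)‖ := by
    have e5 : ‖(Q : ℂ)‖ = Q := by
      rw [Complex.norm_real, Real.norm_of_nonneg hQ0]
    rw [← e5, e1]
    refine (norm_sum_le _ _).trans (Finset.sum_le_sum fun n _ => ?_)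
    rw [norm_mul]
  have e6 : Q ^ 2 ≤ (∑ n ∈ I, ‖h n‖ ^ 2) *
      ∑ n ∈ I, ‖∑ u ∈ S, (starRingEnd ℂ) (a u) * (g u n : ℂ)‖ ^ 2 :=
    (pow_le_pow_left₀ hQ0 e4 2).trans (Finset.sum_mul_sq_le_sq_mul_sq _ _ _)
  have e7 : ∑ n ∈ I, ‖∑ u ∈ S, (starRingEnd ℂ) (a u) * (g u n : ℂ)‖ ^ 2 ≤
      Q * (D + S.card * E) := by
    have e8 : ((∑ n ∈ I, ‖∑ u ∈ S, (starRingEnd ℂ) (a u) * (g u n : ℂ)‖ ^ 2 : ℝ) : ℂ) =
        ∑ u ∈ S, ∑ v ∈ S, (starRingEnd ℂ) (a u) * a v * ((∑ n ∈ I, g u n * g v n : ℝ) : ℂ) := by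
      have e9 : ∀ n ∈ I, ((‖∑ u ∈ S, (starRingEnd ℂ) (a u) * (g u n : ℂ)‖ ^ 2 : ℝ) : ℂ) =
          ∑ u ∈ S, ∑ v ∈ S, (starRingEnd ℂ) (a u) * a v * ((g u n : ℂ) * (g v n : ℂ)) := by
        intro n _
        have e10 : ((‖∑ u ∈ S, (starRingEnd ℂ) (a u) * (g u n : ℂ)‖ ^ 2 : ℝ) : ℂ) =
            (∑ u ∈ S, (starRingEnd ℂ) (a u) * (g u n : ℂ)) *
            (starRingEnd ℂ) (∑ u ∈ S, (starRingEnd ℂ) (a u) * (g u n : ℂ)) := by
          rw [Complex.mul_conj, Complex.normSq_eq_norm_sq]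
        rw [e10, map_sum, Finset.sum_mul_sum]
        refine Finset.sum_congr rfl fun u _ => Finset.sum_congr rfl fun v _ => ?_
        rw [map_mul, Complex.conj_conj, Complex.conj_ofReal]
        ring
      rw [Complex.ofReal_sum, Finset.sum_congr rfl e9, Finset.sum_comm]
      refine Finset.sum_congr rfl fun u _ => ?_
      rw [Finset.sum_comm]
      refine Finset.sum_congr rfl fun v _ => ?_
      rw [← Finset.mul_sum]
      push_cast
      rfl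
    have h0 : 0 ≤ ∑ n ∈ I, ‖∑ u ∈ S, (starRingEnd ℂ) (a u) * (g u n : ℂ)‖ ^ 2 :=
      Finset.sum_nonneg fun n _ => by positivity
    have e11 : ∑ n ∈ I, ‖∑ u ∈ S, (starRingEnd ℂ) (a u) * (g u n : ℂ)‖ ^ 2 ≤
        ∑ u ∈ S, ∑ v ∈ S, ‖a u‖ * ‖a v‖ * |∑ n ∈ I, g u n * g v n| := by
      have e12 : ∑ n ∈ I, ‖∑ u ∈ S, (starRingEnd ℂ) (a u) * (g u n : ℂ)‖ ^ 2 =
          ‖((∑ n ∈ I, ‖∑ u ∈ S, (starRingEnd ℂ) (a u) * (g u n : ℂ)‖ ^ 2 : ℝ) : ℂ)‖ := by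
        rw [Complex.norm_real, Real.norm_of_nonneg h0]
      rw [e12, e8]
      refine (norm_sum_le _ _).trans (Finset.sum_le_sum fun u _ => ?_)
      refine (norm_sum_le _ _).trans (Finset.sum_le_sum fun v _ => ?_)
      rw [norm_mul, norm_mul, RCLike.norm_conj, Complex.norm_real, Real.norm_eq_abs]
    refine e11.trans ?_
    have e13 : ∀ u ∈ S, ∀ v ∈ S, ‖a u‖ * ‖a v‖ * |∑ n ∈ I, g u n * g v n| ≤
        (if u = v then ‖a u‖ ^ 2 * D else 0) + ‖a u‖ * ‖a v‖ * E := by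
      intro u hu v hv
      by_cases huv : u = v
      · subst huv
        rw [if_pos rfl]
        have h1 := hd u hu
        have h2 : 0 ≤ ‖a u‖ * ‖a u‖ := by positivity
        have h3 : ‖a u‖ * ‖a u‖ * |∑ n ∈ I, g u n * g u n| ≤ ‖a u‖ * ‖a u‖ * D :=
          mul_le_mul_of_nonneg_left h1 h2
        have h4 : 0 ≤ ‖a u‖ * ‖a u‖ * E := mul_nonneg h2 hE
        rw [sq]
        linarith
      · rw [if_neg huv, zero_add]
        exact mul_le_mul_of_nonneg_left (he u hu v hv huv) (by positivity)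
    refine (Finset.sum_le_sum fun u hu => Finset.sum_le_sum fun v hv => e13 u hu v hv).trans ?_
    have e14 : ∑ u ∈ S, ∑ v ∈ S, ((if u = v then ‖a u‖ ^ 2 * D else 0) + ‖a u‖ * ‖a v‖ * E) =
        Q * D + (∑ u ∈ S, ‖a u‖) ^ 2 * E := by
      simp only [Finset.sum_add_distrib]
      congr 1
      · rw [hQ, Finset.sum_mul]
        refine Finset.sum_congr rfl fun u hu => ?_
        rw [Finset.sum_ite_eq S u, if_pos hu]
      · rw [sq, Finset.sum_mul_sum, Finset.sum_mul]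
        refine Finset.sum_congr rfl fun u hu => ?_
        rw [Finset.sum_mul]
    rw [e14]
    have e15 : (∑ u ∈ S, ‖a u‖) ^ 2 ≤ S.card * Q := sq_sum_le_card_mul_sum_sq
    have e16 : (∑ u ∈ S, ‖a u‖) ^ 2 * E ≤ S.card * Q * E := mul_le_mul_of_nonneg_right e15 hE
    linarith
  have hX0 : 0 ≤ D + S.card * E := by positivity
  have e17 : Q ^ 2 ≤ P * (Q * (D + S.card * E)) :=
    e6.trans (mul_le_mul hP e7 (Finset.sum_nonneg fun n _ => by positivity) hP0)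
  rcases hQ0.eq_or_lt with h | h
  · rw [← h]
    positivity
  · have e18 : Q * Q ≤ Q * (P * (D + S.card * E)) := by
      nlinarith
    exact le_of_mul_le_mul_left e18 h

theorem msp_gram (K B : ℕ) : ∃ B1 C : ℕ, ∀ A : ℕ, ∀ᶠ x : ℕ in atTop, ∀ H : ℕ, H ≤ x → ∀ S ⊆ range (H + 1),
    Real.log x ^ C ≤ S.card → (∀ u ∈ S, ∀ v ∈ S, u ≠ v → GoodP A B1 x H u v) →
    ∀ β : ℕ, β + H ≤ x → MSP A K B x (tr S β) := by
  refine ⟨2 * K + B + 1, 2 * K + B + 5, fun A => ?_⟩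
  filter_upwards [DZ_inv_le A, HLU.ev_log 2, eventually_ge_atTop 1] with
    x h4 hL2 hx1 H hH S hS hcard hgood β hβ
  refine ⟨tr_sub_range hS hβ, fun h hh => ?_⟩
  rw [sum_tr, tr_card]
  set L : ℝ := Real.log x with hL
  set z : ℕ := zA A x with hz
  have hx0 : (0:ℝ) < x := by exact_mod_cast hx1
  have hL0 : (0:ℝ) < L := by linarith
  have hL1 : (1:ℝ) ≤ L := by linarith
  have hLL : L ≤ L ^ 2 := by nlinarith
  have hff : ∀ n : ℕ, n ≤ 2 * x → |ff z n| ≤ L ^ 2 := by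
    intro n hn
    unfold ff
    have e1 : lp n ≤ L ^ 2 := HLU.lp_le_sq hL2 hn
    have e2 : nuz z n ≤ L ^ 2 := (nuz_le z n).trans (h4.trans hLL)
    have e3 := lp_nonneg n
    have e4 := nuz_nonneg z n
    rw [abs_le]
    constructor <;> linarith
  have hShr : ∀ u ∈ S, u ≤ H := fun u hu => by
    have := Finset.mem_range.mp (hS hu)
    omega
  have hkey := gram_bound (Icc 1 x) S h (fun u n => ff z (n + (u + β))) (x * L ^ (2 * K))
    (x * L ^ 4) (x / L ^ (2 * K + B + 1)) (by positivity) (by positivity) ?_ ?_ ?_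
  · refine hkey.trans ?_
    have hS0 : (0:ℝ) ≤ S.card := Nat.cast_nonneg _
    have e1 : (x:ℝ) * L ^ (2 * K) * (x * L ^ 4 + S.card * (x / L ^ (2 * K + B + 1))) =
        (x:ℝ) ^ 2 * (L ^ (2 * K + 4) + S.card * (L ^ (2 * K) / L ^ (2 * K + B + 1))) := by
      rw [pow_add L (2 * K) 4]
      field_simp
    rw [e1]
    have e2 : L ^ (2 * K) / L ^ (2 * K + B + 1) = 1 / (L ^ B * L) := by
      rw [div_eq_div_iff (by positivity) (by positivity), one_mul,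
        show 2 * K + B + 1 = 2 * K + (B + 1) by ring, pow_add L (2 * K), pow_succ]
    rw [e2]
    have e3 : 1 / (L ^ B * L) ≤ 1 / (2 * L ^ B) := by
      refine one_div_le_one_div_of_le (by positivity) ?_
      rw [mul_comm]
      exact mul_le_mul_of_nonneg_left hL2 (by positivity)
    have e4 : L ^ (2 * K + 4) ≤ S.card * (1 / (2 * L ^ B)) := by
      rw [mul_one_div, le_div_iff₀ (by positivity)]
      refine le_trans ?_ hcard
      calc L ^ (2 * K + 4) * (2 * L ^ B) = 2 * L ^ (2 * K + B + 4) := by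
            rw [show 2 * K + B + 4 = (2 * K + 4) + B by ring, pow_add L (2 * K + 4) B]
            ring
        _ ≤ L * L ^ (2 * K + B + 4) := mul_le_mul_of_nonneg_right hL2 (by positivity)
        _ = L ^ (2 * K + B + 5) := by
            rw [show 2 * K + B + 5 = (2 * K + B + 4) + 1 by ring, pow_succ L (2 * K + B + 4)]
            ring
    have e5 : L ^ (2 * K + 4) + S.card * (1 / (L ^ B * L)) ≤ S.card * (1 / L ^ B) := by
      have e6 : (S.card : ℝ) * (1 / (L ^ B * L)) ≤ S.card * (1 / (2 * L ^ B)) :=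
        mul_le_mul_of_nonneg_left e3 hS0
      have e7 : (S.card : ℝ) * (1 / L ^ B) = S.card * (1 / (2 * L ^ B)) + S.card * (1 / (2 * L ^ B)) := by
        field_simp
        ring
      linarith
    calc (x:ℝ) ^ 2 * (L ^ (2 * K + 4) + S.card * (1 / (L ^ B * L)))
        ≤ (x:ℝ) ^ 2 * (S.card * (1 / L ^ B)) := mul_le_mul_of_nonneg_left e5 (by positivity)
      _ = (S.card : ℝ) * ((x:ℝ) ^ 2 / L ^ B) := by
          rw [mul_one_div]
          ring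
  · have e1 : ∀ n ∈ Icc 1 x, ‖h n‖ ^ 2 ≤ L ^ (2 * K) := by
      intro n hn
      have := pow_le_pow_left₀ (norm_nonneg _) (hh n hn) 2
      rwa [← pow_mul, mul_comm K 2] at this
    refine (Finset.sum_le_sum e1).trans ?_
    rw [Finset.sum_const, nsmul_eq_mul, Nat.card_Icc, Nat.add_sub_cancel]
  · intro u hu
    have hu' := hShr u hu
    refine (Finset.abs_sum_le_sum_abs _ _).trans ?_
    have e1 : ∀ n ∈ Icc 1 x, |ff z (n + (u + β)) * ff z (n + (u + β))| ≤ L ^ 4 := by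
      intro n hn
      rw [mem_Icc] at hn
      have e2 := hff (n + (u + β)) (by omega)
      rw [abs_mul]
      have e3 := abs_nonneg (ff z (n + (u + β)))
      calc |ff z (n + (u + β))| * |ff z (n + (u + β))| ≤ L ^ 2 * L ^ 2 :=
            mul_le_mul e2 e2 e3 (by positivity)
        _ = L ^ 4 := by ring
    refine (Finset.sum_le_sum e1).trans ?_
    rw [Finset.sum_const, nsmul_eq_mul, Nat.card_Icc, Nat.add_sub_cancel]
  · intro u hu v hv huv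
    exact hgood u hu v hv huv β hβ

end Pool.Agent.VN
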